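import Pool.Agent.R782.Bal.Tay

/-!
# Coxeter weights on colourwise barycentric subdivisions: arbitrary sizes of the colour classes
-/

set_option autoImplicit false
set_option linter.unusedSectionVars false

namespace Pool.Agent.NH65.CX

open Finset Pool.Agent.W907.SG Pool.Agent.W907.SM Pool.Agent.R782.Bal
open Pool.Agent.TH652.Above (HSph singer_of_above chi_sign lv_img lv_set)
open Pool.Agent.W497.FS (cl lam lkF mem_cl mem_lkF cl_of_subset)
open Pool.Agent.R703.CW (Orders omegaN omegaN_eq chiW_eq mem_cl_univ card_le_of_hsph hsph_link chiW_link Heavy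
  lam_ra bN_ra bN_ra_empty bN_light)
open Y365.FS

/-! ### the comparison of the weighted and the right-angled quantities -/

section general

variable {V : Type} [Fintype V] [LinearOrder V] {G : SimpleGraph V}

/-- **the comparison**: the inequality of Charney and Davis is only used for the links of those heavy cliques `T`
which do not have an odd part all of whose edges to the rest of `T` have weight `2` -/
theorem weighted_or {m : ℕ} (hS : HSph (2 * m) G) (w : Finset V → ℕ) (M : Finset V → ℚ) (hN : Orders G w M)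
    (hc : ∀ T : Finset V, G.IsClique (T : Set V) → Heavy w T → T.Nonempty → ∀ j l, T.card = 2 * j → j + l = m →
      0 ≤ (-1) ^ l * lam G (lkF G Finset.univ T) ∨
        ∃ A ⊆ T, Odd A.card ∧ ∀ x ∈ A, ∀ y ∈ T, y ∉ A → w {x, y} = 2) :
    (-1) ^ m * chiW G ≤ (-1) ^ m * omegaN G M := by
  classical
  rw [omegaN_eq, chiW_eq]
  have hw : ∀ e ∈ cl G univ, e.card = 2 → 2 ≤ w e ∧ M e = 2 * w e := by
    intro e he he2
    obtain ⟨u, v, huv, rfl⟩ := Finset.card_eq_two.1 he2
    exact hN.edge u v ((mem_cl_univ _).1 he (by simp) (by simp) huv)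
  have hmul : ∀ A B, Disjoint A B → A ∪ B ∈ cl G univ → (∀ a ∈ A, ∀ b ∈ B, w {a, b} = 2) →
      M (A ∪ B) = M A * M B := fun A B hAB hAB2 h => hN.mul A B hAB ((mem_cl_univ _).1 hAB2) h
  have hF : ∀ T ∈ cl G univ, ∀ U ⊆ T, U ∈ cl G univ := fun T hT U hU => cl_of_subset hT hU
  have hG := goodOrders_of hF w (fun e he he2 => (hw e he he2).1) M hN.empty (fun v _ => hN.vertex v)
    (fun e he he2 => (hw e he he2).2) hmul (fun T hT h3 hc => hN.sign T ((mem_cl_univ T).1 hT) h3 hc)
  have hN0 : bN M (∅ : Finset V) = 1 := by simp [bN, hN.empty]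
  rw [← lam_ra (H := G) univ]
  refine Pool.Agent.R703.CW.compare m univ (fun σ => 2 ^ σ.card) M
    (fun T hT => card_le_of_hsph hS T ((mem_cl_univ T).1 hT)) ?_ ?_ ?_
  · intro T hT ho
    rw [(hG T hT).1 ho, bN_ra T (Finset.card_pos.1 ho.pos)]
  · intro T hT j hj
    rcases T.eq_empty_or_nonempty with rfl | hne
    · rw [hN0, bN_ra_empty, sub_self, mul_zero]
    · rw [bN_ra T hne, sub_zero]
      exact (hG T hT).2 j hj
  · intro T hT j l hj hl hb
    rcases T.eq_empty_or_nonempty with rfl | hne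
    · exact absurd (by rw [hN0, bN_ra_empty]) hb
    · have hTc := (mem_cl_univ T).1 hT
      have hh : Heavy w T := by
        by_contra hh
        exact hb (by rw [bN_ra T hne, bN_light hF w M hN.empty (fun v _ => hN.vertex v) hmul T hT hh])
      rcases hc T hTc hh hne j l hj hl with h1 | ⟨A, hA, hAo, hAw⟩
      · exact h1
      · exfalso
        apply hb
        rw [bN_ra T hne]
        have hd : Disjoint A (T \ A) := disjoint_sdiff
        have hu : A ∪ (T \ A) = T := union_sdiff_of_subset hA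
        have h2 := bN_union hd M (fun U hU V hV => hmul U V
          (Finset.disjoint_of_subset_left hU (Finset.disjoint_of_subset_right hV hd))
          (hF T hT _ (by rw [← hu]; exact Finset.union_subset_union hU hV))
          (fun x hx y hy => by
            have hy' := mem_sdiff.1 (hV hy)
            exact hAw x (hU hx) y hy'.1 hy'.2))
        rw [hu, (hG A (hF T hT A hA)).1 hAo, zero_mul] at h2
        exact h2.symm

end general

/-! ### the links in a coloured subdivision -/

variable {N k : ℕ} {X : Finset (Finset (Fin N))} {col : Fin N → Fin k}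

section cs

variable {T : Finset (MF X col)} (hT : (cs X col).IsClique (T : Set (MF X col)))

include hT

/-- the size of the elements of the link -/
theorem top_count' {p : ℕ} {ρ : MF X col} (hρ : ρ ∈ lk (cs X col) T)
    (hle : ∀ σ : MF X col, Cmp T σ → mc σ = mc ρ → σ.1.card ≤ p) :
    ρ.1.card + tcol T (mc ρ) ≤ p + nb T ρ := by
  classical
  rcases (T.filter (fun τ => ρ.1 ⊂ τ.1)).eq_empty_or_nonempty with h | h
  · have h1 : tcol T (mc ρ) ≤ nb T ρ := by
      rw [tcol, nb]
      refine card_le_card fun τ hτ => ?_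
      rw [mem_filter] at hτ ⊢
      refine ⟨hτ.1, ?_⟩
      rcases comp (hρ τ hτ.1).symm hτ.2 with h2 | h2
      · exact h2
      · exfalso
        have : τ ∈ (T.filter (fun τ => ρ.1 ⊂ τ.1)) := mem_filter.mpr ⟨hτ.1, h2⟩
        rw [h] at this
        exact notMem_empty _ this
    have h2 := hle ρ (fun τ hτ => Or.inr (hρ τ hτ).symm) rfl
    omega
  · obtain ⟨τ0, h0, hmax⟩ := exists_max_image _ (fun τ : MF X col => τ.1.card) h
    rw [mem_filter] at h0
    have hmc := mc_of_sub h0.2.subset
    have h1 := chain_count hT _ ρ τ0 rfl hρ h0.2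
    have h2 := hle τ0 (cmp_of_mem hT h0.1) hmc.symm
    have h3 : tcol T (mc ρ) ≤ nb T τ0 + 1 := by
      rw [tcol, nb]
      have e : T.filter (fun τ => mc τ = mc ρ) ⊆ insert τ0 (T.filter (fun τ => τ.1 ⊂ τ0.1)) := by
        intro τ hτ
        rw [mem_filter] at hτ
        rw [mem_insert, mem_filter]
        by_cases e : τ = τ0
        · exact Or.inl e
        · right
          refine ⟨hτ.1, ?_⟩
          rcases comp (hT hτ.1 h0.1 e) (by rw [hτ.2, hmc]) with h4 | h4
          · exact h4
          · exact absurd (hmax τ (mem_filter.mpr ⟨hτ.1, h0.2.trans h4⟩)) (not_le.mpr (card_lt_card h4))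
      refine (card_le_card e).trans (card_insert_le _ _ |>.trans ?_)
      rw [Nat.add_le_add_iff_right]
    omega

/-- the number of the elements of a colour -/
theorem tcol_le' (p : Fin k → ℕ) (hsz : ∀ σ : MF X col, Cmp T σ → σ.1.card ≤ p (mc σ)) (c : Fin k) :
    tcol T c ≤ p c := by
  classical
  rcases (T.filter (fun τ => mc τ = c)).eq_empty_or_nonempty with h | h
  · have : tcol T c = 0 := by
      rw [tcol, card_eq_zero, Finset.eq_empty_iff_forall_notMem]
      intro τ hτ
      have h1 : τ ∈ T.filter (fun τ => mc τ = c) := mem_filter.mpr (mem_filter.mp hτ)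
      rw [h] at h1
      exact notMem_empty _ h1
    omega
  · obtain ⟨τ0, h0, hmax⟩ := exists_max_image _ (fun τ : MF X col => τ.1.card) h
    rw [mem_filter] at h0
    have h3 : tcol T c ≤ nb T τ0 + 1 := by
      rw [tcol, nb]
      have e : T.filter (fun τ => mc τ = c) ⊆ insert τ0 (T.filter (fun τ => τ.1 ⊂ τ0.1)) := by
        intro τ hτ
        rw [mem_filter] at hτ
        rw [mem_insert, mem_filter]
        by_cases e : τ = τ0
        · exact Or.inl e
        · right
          refine ⟨hτ.1, ?_⟩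
          rcases comp (hT hτ.1 h0.1 e) (by rw [hτ.2, h0.2]) with h4 | h4
          · exact h4
          · exact absurd (hmax τ (mem_filter.mpr hτ)) (not_le.mpr (card_lt_card h4))
      refine (card_le_card e).trans (card_insert_le _ _ |>.trans ?_)
      rw [Nat.add_le_add_iff_right]
    have h4 := nb_lt hT _ τ0 rfl
    have h5 := hsz τ0 (cmp_of_mem hT h0.1)
    rw [h0.2] at h5
    omega

/-- **the `ℓ²`-homology of the links** -/
theorem lv_link' {l : ℕ} (hX : ∀ σ ∈ X, ∀ τ : Finset (Fin N), τ ⊆ σ → τ ∈ X) (p : Fin k → ℕ)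
    (hsz : ∀ σ : MF X col, Cmp T σ → σ.1.card ≤ p (mc σ))
    (ha : ∑ c, (p c + 1 - tcol T c) / 2 ≤ l + 1)
    (hE : Emb l ((cs X col).induce (lk (cs X col) T))) (i : ℕ) (hi : l < i) :
    LV ((cs X col).induce (lk (cs X col) T)) i := by
  classical
  by_cases hodd : ∀ τ ∈ T, Odd (τ.1 \ bs T τ).card
  swap
  · push Not at hodd
    obtain ⟨τ, hτ, he⟩ := hodd
    rw [Nat.not_odd_iff_even] at he
    refine lv_join_set _ _ {ρ | bs T τ ⊂ ρ.1 ∧ ρ.1 ⊂ τ.1}
      (fun ρ hρ => mem_lk_of_between hT hX (cmp_of_mem hT hτ) hρ.1 hρ.2) ?_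
      (fun i => lv_interval hX τ _ (bs_ssub hT τ) he i) i
    intro ρ hρ w hw hno
    exact adj_between hT hX hw (hw τ hτ).symm hno hρ.1 hρ.2
  · set L := lk (cs X col) T with hL
    refine lv_relsub ((cs X col).induce L) {x | Even (x.1.1 \ bs T x.1).card}
      (fun x => {y | bs T x.1 ⊂ y.1.1 ∧ y.1.1 ⊂ x.1.1}) (fun x => x.1.1.card) (l + 1) ?_ ?_ ?_ ?_ i hi
    · intro x _ y hy
      exact ⟨(adj_of_ssub (σ := y.1) (τ := x.1) hy.2).symm, card_lt_card hy.2⟩
    · intro x _ w hw hno y hy
      exact adj_between hT hX (σ := x.1) (ρ := y.1) (w := w.1) w.2 hw hno hy.1 hy.2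
    · intro x hx i
      have h1 := lv_interval hX x.1 (bs T x.1) (bs_ssub hT x.1) hx i
      refine (lv_img (G := cs X col) (H := (cs X col).induce L) Subtype.val
        {y | bs T x.1 ⊂ y.1.1 ∧ y.1.1 ⊂ x.1.1} (fun _ _ _ _ h => Subtype.ext h) (fun _ _ _ _ => Iff.rfl) i).2 ?_
      refine lv_set ?_ h1
      ext y
      constructor
      · rintro ⟨y, hy, rfl⟩
        exact hy
      · intro hy
        refine ⟨⟨y, mem_lk_of_between hT hX (fun τ hτ => Or.inr (x.2 τ hτ).symm) hy.1 hy.2⟩, hy, rfl⟩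
    · intro i hi _ _
      -- the colours
      have hcard : Fintype.card (Σ c : Fin k, Fin ((p c + 1 - tcol T c) / 2)) ≤ Fintype.card (Fin (l + 1)) := by
        rw [Fintype.card_sigma, Fintype.card_fin]
        simpa using ha
      obtain ⟨ι⟩ := Function.Embedding.nonempty_of_card_le hcard
      have hpar : ∀ σ : ↥({x : ↥L | Even (x.1.1 \ bs T x.1).card}ᶜ),
          nb T σ.1.1 + 1 ≤ σ.1.1.1.card ∧ (nb T σ.1.1 + 1) % 2 = σ.1.1.1.card % 2 := fun σ =>
        parity hT hodd _ σ.1.1 rfl (Nat.not_even_iff_odd.mp σ.2)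
      have hlt : ∀ σ : ↥({x : ↥L | Even (x.1.1 \ bs T x.1).card}ᶜ),
          (σ.1.1.1.card - nb T σ.1.1 - 1) / 2 < (p (mc σ.1.1) + 1 - tcol T (mc σ.1.1)) / 2 := by
        intro σ
        have h1 := top_count' hT (p := p (mc σ.1.1)) σ.1.2 fun s hs hc => by
          have := hsz s hs
          rwa [hc] at this
        have h2 := hpar σ
        omega
      refine l2_emb (hE.induce _)
        (fun σ => ι ⟨mc σ.1.1, ⟨(σ.1.1.1.card - nb T σ.1.1 - 1) / 2, hlt σ⟩⟩) ?_ i (by omega)
      intro σ τ hστ h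
      have hστ : (cs X col).Adj σ.1.1 τ.1.1 := hστ
      have h1 := ι.injective h
      rw [Sigma.mk.injEq] at h1
      obtain ⟨h2, h3⟩ := h1
      have h4 : (σ.1.1.1.card - nb T σ.1.1 - 1) / 2 = (τ.1.1.1.card - nb T τ.1.1 - 1) / 2 := by
        have h5 : ∀ (n m : ℕ) (_ : n = m) (x : Fin n) (y : Fin m), x ≍ y → x.1 = y.1 := by
          rintro n m rfl x y h
          rw [eq_of_heq h]
        exact h5 _ _ (by rw [h2]) _ _ h3
      have a1 := hpar σ
      have a2 := hpar τ
      rcases comp hστ h2 with h6 | h6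
      · have h7 := chain_count hT _ σ.1.1 τ.1.1 rfl σ.1.2 h6
        omega
      · have h7 := chain_count hT _ τ.1.1 σ.1.1 rfl τ.1.2 h6
        omega

/-- counting -/
theorem sum_bound'' (p : Fin k → ℕ) (hsz : ∀ σ : MF X col, Cmp T σ → σ.1.card ≤ p (mc σ)) {n l : ℕ}
    (hl : T.card + 2 * l = n) (hc : ∑ c, p c + ∑ c, (p c + tcol T c) % 2 ≤ n + 2) :
    ∑ c, (p c + 1 - tcol T c) / 2 ≤ l + 1 := by
  have h1 : ∀ c, 2 * ((p c + 1 - tcol T c) / 2) + tcol T c = p c + (p c + tcol T c) % 2 := by
    intro c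
    have := tcol_le' hT p hsz c
    omega
  have h2 : 2 * ∑ c, (p c + 1 - tcol T c) / 2 + ∑ c, tcol T c = ∑ c, p c + ∑ c, (p c + tcol T c) % 2 := by
    rw [mul_sum, ← sum_add_distrib, ← sum_add_distrib]
    exact sum_congr rfl fun c _ => h1 c
  rw [sum_tcol] at h2
  omega

end cs

variable [Fintype (MF X col)] [LinearOrder (MF X col)]

/-- **the Charney–Davis inequality for the links** -/
theorem cd_link4 (hX : ∀ σ ∈ X, ∀ τ : Finset (Fin N), τ ⊆ σ → τ ∈ X) {n : ℕ} (hS : HSph n (cs X col))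
    {N' n' : ℕ} (K : Finset (Finset (Fin N'))) (f : MF X col ↪ Fin N') (hn : n' ≤ n + 1)
    (hK : Pool.Agent.Y131.KS.HSph K n')
    (hf : ∀ T : Finset (MF X col), (cs X col).IsClique (T : Set (MF X col)) → T.map f ∈ K)
    (T : Finset (MF X col)) (hT : (cs X col).IsClique (T : Set (MF X col)))
    (p : Fin k → ℕ) (hsz : ∀ σ : MF X col, Cmp T σ → σ.1.card ≤ p (mc σ)) {l : ℕ}
    (hl : T.card + 2 * l = n) (hc : ∑ c, p c + ∑ c, (p c + tcol T c) % 2 ≤ n + 2) :
    0 ≤ (-1) ^ l * lam (cs X col) (lkF (cs X col) Finset.univ T) := by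
  classical
  have hfin : Fintype ↥(lk (cs X col) T) := Fintype.ofFinite _
  have h1 := hsph_link hS T hT
  have h3 : n - T.card = 2 * l := by omega
  rw [h3] at h1
  rw [← chiW_link T]
  refine chi_sign _ fun i hi => singer_of_above h1 (fun i hi => ?_) i (by omega)
  exact lv_link' hT hX p hsz (sum_bound'' hT p hsz hl hc) (emb_link' _ T hT hl K f hn hK hf) i (by omega) _ _

end Pool.Agent.NH65.CX
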