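import Pool.Agent.Y131.KS.Hom

/-!
# Blocks of colours, homology spheres mod 2
-/

set_option autoImplicit false

namespace Pool.Agent.NH65.CX

open Finset

/-- `β` is a partition of the colours into blocks and `p c` is the size of the colour `c`: the number of the colours
in the block `B`, diminished by `1` if it is not congruent mod 2 to the sum of the sizes of the colours in `B` -/
def odds {k r : ℕ} (β : Fin k → Fin r) (p : Fin k → ℕ) (B : Fin r) : ℕ :=
  (univ.filter (fun c => β c = B)).card -
    ((univ.filter (fun c => β c = B)).card + ∑ c ∈ univ.filter (fun c => β c = B), p c) % 2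

/-- the flag complex of `G` is contained in a homology sphere mod 2 of dimension at most `n` -/
def Mod2 {V : Type} (n : ℕ) (G : SimpleGraph V) : Prop :=
  ∃ (N n' : ℕ) (K : Finset (Finset (Fin N))) (f : V ↪ Fin N), n' ≤ n + 1 ∧ Pool.Agent.Y131.KS.HSph K n' ∧
    ∀ T : Finset V, G.IsClique (T : Set V) → T.map f ∈ K

end Pool.Agent.NH65.CX
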