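import Pool.Agent.NH65.CX.Base
import Pool.Agent.NH65.CX.BlkDef

/-!
# Blocks of colours
-/

set_option autoImplicit false
set_option linter.unusedSectionVars false

namespace Pool.Agent.NH65.CX

open Finset Pool.Agent.W907.SG Pool.Agent.W907.SM Pool.Agent.R782.Bal
open Pool.Agent.TH652.Above (HSph singer_of_above chi_sign)
open Pool.Agent.W497.FS (cl lam lkF mem_cl mem_lkF cl_of_subset)
open Pool.Agent.R703.CW (Orders omegaN Heavy)

theorem block_le {k r : ℕ} (β : Fin k → Fin r) (p t : Fin k → ℕ) (B : Fin r)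
    (ht : Even (∑ c ∈ univ.filter (fun c => β c = B), t c)) :
    ∑ c ∈ univ.filter (fun c => β c = B), (p c + t c) % 2 ≤ odds β p B := by
  rw [odds]
  set s := univ.filter (fun c => β c = B) with hs
  have h1 : ∑ c ∈ s, (p c + t c) % 2 ≤ s.card := by
    refine (Finset.sum_le_sum fun c _ =>
      (Nat.lt_succ_iff.mp (Nat.mod_lt _ (by norm_num : 0 < 2)) : _ ≤ 1)).trans ?_
    simp
  have h2 : (∑ c ∈ s, (p c + t c) % 2) % 2 = (∑ c ∈ s, p c + ∑ c ∈ s, t c) % 2 := by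
    rw [← Finset.sum_nat_mod, Finset.sum_add_distrib]
  obtain ⟨u, hu⟩ := ht
  omega

theorem blocks_le {k r : ℕ} (β : Fin k → Fin r) (p t : Fin k → ℕ)
    (ht : ∀ B, Even (∑ c ∈ univ.filter (fun c => β c = B), t c)) :
    ∑ c, (p c + t c) % 2 ≤ ∑ B, odds β p B := by
  rw [← Finset.sum_fiberwise (s := (univ : Finset (Fin k))) (g := β) (f := fun c => (p c + t c) % 2)]
  exact Finset.sum_le_sum fun B _ => block_le β p t B (ht B)

variable {N k : ℕ} {X : Finset (Finset (Fin N))} {col : Fin N → Fin k}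

theorem sum_tcol_block {r : ℕ} (β : Fin k → Fin r) (T : Finset (MF X col)) (B : Fin r) :
    ∑ c ∈ univ.filter (fun c => β c = B), tcol T c = (T.filter (fun τ => β (mc τ) = B)).card := by
  classical
  have h := card_eq_sum_card_fiberwise (s := T.filter (fun τ => β (mc τ) = B))
    (t := univ.filter (fun c => β c = B)) (f := mc) fun x hx => by
      have hx' := (mem_filter.mp (mem_coe.mp hx)).2
      exact mem_coe.mpr (mem_filter.mpr ⟨mem_univ _, hx'⟩)
  rw [h]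
  refine sum_congr rfl fun c hc => ?_
  rw [tcol, filter_filter]
  congr 1
  ext τ
  rw [mem_filter, mem_filter]
  constructor
  · rintro ⟨h1, h2⟩
    exact ⟨h1, by rw [h2]; exact (mem_filter.mp hc).2, h2⟩
  · rintro ⟨h1, _, h2⟩
    exact ⟨h1, h2⟩

/-- every simplex of `X` which contains the vertex `v` has at most `p c` vertices of the colour `c` -/
def StarSize (X : Finset (Finset (Fin N))) (col : Fin N → Fin k) (p : Fin k → ℕ) (v : Fin N) : Prop :=
  ∀ F ∈ X, v ∈ F → ∀ c, (F.filter (fun u => col u = c)).card ≤ p c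

theorem cmp_le {p : Fin k → ℕ} {v : Fin N} (h : StarSize X col p v) {T : Finset (MF X col)} {τ σ : MF X col}
    (hτ : τ ∈ T) (hv : v ∈ τ.1) (hσ : Cmp T σ) : σ.1.card ≤ p (mc σ) := by
  have h1 : ∃ F ∈ X, v ∈ F ∧ σ.1 ⊆ F := by
    rcases hσ τ hτ with rfl | h2
    · exact ⟨τ.1, τ.2.1, hv, Finset.Subset.refl _⟩
    · exact ⟨τ.1 ∪ σ.1, h2.2.1, mem_union_left _ hv, subset_union_right⟩
  obtain ⟨F, hF, hvF, hs⟩ := h1
  refine (card_le_card fun u hu => ?_).trans (h F hF hvF (mc σ))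
  exact mem_filter.mpr ⟨hs hu, mc_eq σ hu⟩

variable [Fintype (MF X col)] [LinearOrder (MF X col)]

/-- **comparison, local form** -/
theorem compare_blocks {r : ℕ} (β : Fin k → Fin r) (hX : ∀ σ ∈ X, ∀ τ : Finset (Fin N), τ ⊆ σ → τ ∈ X) {m : ℕ}
    (hS : HSph (2 * m) (cs X col)) (hS2 : Mod2 (2 * m) (cs X col))
    (hp : ∀ v, {v} ∈ X → ∃ p : Fin k → ℕ, StarSize X col p v ∧ ∑ c, p c + ∑ B, odds β p B ≤ 2 * m + 2)
    (w : Finset (MF X col) → ℕ) (M : Finset (MF X col) → ℚ) (hN : Orders (cs X col) w M)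
    (hw : ∀ σ τ, (cs X col).Adj σ τ → β (mc σ) ≠ β (mc τ) → w {σ, τ} = 2) :
    (-1) ^ m * chiW (cs X col) ≤ (-1) ^ m * omegaN (cs X col) M := by
  classical
  obtain ⟨N', n', K, f, hn, hK, hf⟩ := hS2
  refine weighted_or hS w M hN fun T hT _ hne j l hj hl => ?_
  by_cases hodd : ∃ B, Odd (T.filter (fun τ => β (mc τ) = B)).card
  · obtain ⟨B, hB⟩ := hodd
    refine Or.inr ⟨T.filter (fun τ => β (mc τ) = B), filter_subset _ _, hB, fun x hx y hy hyn => ?_⟩
    rw [mem_filter] at hx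
    have h1 : β (mc x) ≠ β (mc y) := fun e => hyn (mem_filter.mpr ⟨hy, by rw [← e, hx.2]⟩)
    exact hw x y (hT hx.1 hy fun e => h1 (by rw [e])) h1
  · push Not at hodd
    left
    obtain ⟨τ, hτ⟩ := hne
    obtain ⟨v, hv⟩ := τ.2.2.1
    obtain ⟨p, hp1, hp2⟩ := hp v (hX τ.1 τ.2.1 _ (singleton_subset_iff.mpr hv))
    refine cd_link4 hX hS K f hn hK hf T hT p (fun σ hσ => cmp_le hp1 hτ hv hσ) (by omega) ?_
    have h1 := blocks_le β p (tcol T) fun B => by
      rw [sum_tcol_block]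
      exact Nat.not_odd_iff_even.mp (hodd B)
    omega

/-- **the right-angled inequality** -/
theorem ra_blocks {r : ℕ} (β : Fin k → Fin r) (hX : ∀ σ ∈ X, ∀ τ : Finset (Fin N), τ ⊆ σ → τ ∈ X) {m : ℕ}
    (hS : HSph (2 * m) (cs X col)) (hS2 : Mod2 (2 * m) (cs X col))
    (p : Fin k → ℕ) (hp1 : ∀ F ∈ X, ∀ c, (F.filter (fun u => col u = c)).card ≤ p c)
    (hp2 : ∑ c, p c + ∑ B, odds β p B ≤ 2 * m + 2) : 0 ≤ (-1 : ℚ) ^ m * chiW (cs X col) := by
  classical
  obtain ⟨N', n', K, f, hn, hK, hf⟩ := hS2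
  have h1 := blocks_le β p (fun _ => 0) fun B => by simp
  have h2 : 2 * ∑ c, (p c + 1) / 2 = ∑ c, p c + ∑ c, (p c + 0) % 2 := by
    rw [mul_sum, ← sum_add_distrib]
    refine sum_congr rfl fun c _ => by omega
  refine ra_cs hX (fun c => (p c + 1) / 2) (fun σ hσ c hc => ?_) hS K f hn hK hf (by omega)
  have h3 := hp1 σ hσ c
  rw [filter_true_of_mem hc] at h3
  omega

end Pool.Agent.NH65.CX
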