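import Mathlib

/-!
# Coxeter weights and the orders of the finite Coxeter groups
-/

set_option autoImplicit false

namespace Pool.Agent.NH65.CX

/-- order of the Coxeter group of the type `A k` -/
def gA (k : ℕ) : ℕ := (k + 1).factorial

/-- order of the Coxeter group of the type `B k` -/
def gB (k : ℕ) : ℕ := 2 ^ k * k.factorial

/-- order of the Coxeter group of the type `D k`, `k ≥ 2` (`D 2 = A 1 × A 1`, `D 3 = A 3`) -/
def gD (k : ℕ) : ℕ := 2 ^ (k - 1) * k.factorial

/-- orders of the Coxeter groups of the types `H k`, `k ≤ 4` (`H 2` is the dihedral group of order 10) -/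
def gH : ℕ → ℕ
  | 0 => 1
  | 1 => 2
  | 2 => 10
  | 3 => 120
  | _ => 14400

/-- orders of the Coxeter groups of the types `E k`, `4 ≤ k ≤ 8` (`E 4 = A 4`, `E 5 = D 5`) -/
def gE : ℕ → ℕ
  | 4 => 120
  | 5 => 1920
  | 6 => 51840
  | 7 => 2903040
  | _ => 696729600

/-- A list of booleans describes a set `U` of vertices of a path (in the order of the path). The order of the
group `W_U` of a path with all weights `3` which is preceded by `k` more vertices in `U`. -/
def ordPA : ℕ → List Bool → ℕ
  | k, [] => gA k
  | k, true :: l => ordPA (k + 1) l
  | k, false :: l => gA k * ordPA 0 l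

/-- The same for a diagram the rest of which is a path with all weights `3`: the component which contains the `k`
elements of `U` before the path has the order `g n`, if it has `n` elements. -/
def ordP (g : ℕ → ℕ) : ℕ → List Bool → ℕ
  | k, [] => g k
  | k, true :: l => ordP g (k + 1) l
  | k, false :: l => g k * ordPA 0 l

/-- type `D`: the vertices `0` and `1` are joined to `2`, the path is `2, 3, …` -/
def ordD : List Bool → ℕ
  | a :: b :: l => ordP (if a && b then gD else gA) (a.toNat + b.toNat) l
  | _ => 1

/-- type `E`: the vertex `0` is joined to `3`, the path is `1, 2, 3, …` -/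
def ordE : List Bool → ℕ
  | b :: p :: q :: r :: l =>
    if b && r then (if q then (if p then ordP gE 4 l else ordP gD 3 l) else (1 + p.toNat) * ordP gA 2 l)
    else (1 + b.toNat) * ordPA 0 (p :: q :: r :: l)
  | _ => 1

/-- type `F_4`: the path `0, 1, 2, 3` with the weight `4` in the middle -/
def ordF : List Bool → ℕ
  | [a, b, c, d] => if b && c then (if a && d then 1152 else if a || d then 48 else 8) else ordPA 0 [a, b, c, d]
  | _ => 1

/-- the types of finite irreducible Coxeter groups of rank at least three -/
inductive Typ
  | A | B | D | E | F | H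

/-- the possible ranks -/
def Typ.rank : Typ → ℕ → Prop
  | .A, _ => True
  | .B, n => 2 ≤ n
  | .D, n => 4 ≤ n
  | .E, n => n = 6 ∨ n = 7 ∨ n = 8
  | .F, n => n = 4
  | .H, n => n = 3 ∨ n = 4

/-- The weight of the pair `{i, j}`, `i < j`, of vertices of the Coxeter diagram. The vertices are numbered along a path,
with the following exceptions: in the type `D` the vertices `0` and `1` are both joined to `2`, and in the type `E`
the vertex `0` is joined to `3` and the path is `1, 2, 3, …`. -/
def Typ.wt : Typ → ℕ → ℕ → ℕ
  | .A, i, j => if j = i + 1 then 3 else 2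
  | .B, i, j => if j = i + 1 then (if i = 0 then 4 else 3) else 2
  | .D, i, j => if i = 0 then (if j = 2 then 3 else 2) else if j = i + 1 then 3 else 2
  | .E, i, j => if i = 0 then (if j = 3 then 3 else 2) else if j = i + 1 then 3 else 2
  | .F, i, j => if j = i + 1 then (if i = 1 then 4 else 3) else 2
  | .H, i, j => if j = i + 1 then (if i = 0 then 5 else 3) else 2

/-- the order of the parabolic subgroup of the set `U` of vertices of the diagram described by a list of booleans -/
def Typ.ord : Typ → List Bool → ℕ
  | .A => ordP gA 0
  | .B => ordP gB 0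
  | .D => ordD
  | .E => ordE
  | .F => ordF
  | .H => ordP gH 0

/-- the set of the elements of the list `x` at the positions at which `s` is `true` -/
def sub {V : Type} [DecidableEq V] : List V → List Bool → Finset V
  | a :: x, true :: s => insert a (sub x s)
  | _ :: x, false :: s => sub x s
  | _, _ => ∅

/-- **Coxeter weights and the orders of the Coxeter groups.** The edges of the flag complex of `G` have weights
`w {u, v} ≥ 2`, and `M T` is the order of the Coxeter group `W_T` for each clique `T`: it is `1` for the empty set, `2`
for a vertex, `2 w {u, v}` for an edge, it is multiplicative for sets with weights `2` between them, and each clique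
`T` with at least three elements which is connected by edges of weight at least `3` is the Coxeter diagram of one of
the types `A_n`, `B_n`, `D_n`, `E_6`, `E_7`, `E_8`, `F_4`, `H_3`, `H_4` (that is, `W_T` is finite, by the classification
of the finite Coxeter groups), numbered as in `Typ.wt` by a list `x` of its elements, and `M U` is for each subset `U`
of `T` the order `Typ.ord` of the parabolic subgroup `W_U` of the group of this type. -/
structure CoxOrders {V : Type} [DecidableEq V] (G : SimpleGraph V) (w : Finset V → ℕ) (M : Finset V → ℚ) : Prop where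
  /-- the trivial group -/
  empty : M ∅ = 1
  /-- the group with two elements -/
  vertex : ∀ v, M {v} = 2
  /-- dihedral groups -/
  edge : ∀ u v, G.Adj u v → 2 ≤ w {u, v} ∧ M {u, v} = 2 * w {u, v}
  /-- products -/
  mul : ∀ A B : Finset V, Disjoint A B → G.IsClique ((A ∪ B : Finset V) : Set V) →
    (∀ a ∈ A, ∀ b ∈ B, w {a, b} = 2) → M (A ∪ B) = M A * M B
  /-- irreducible groups of rank at least three -/
  diagram : ∀ T : Finset V, G.IsClique (T : Set V) → 3 ≤ T.card →
    (∀ A ⊆ T, A.Nonempty → A ≠ T → ∃ a ∈ A, ∃ b ∈ T, b ∉ A ∧ w {a, b} ≠ 2) →
    ∃ (τ : Typ) (x : List V), x.Nodup ∧ x.toFinset = T ∧ τ.rank x.length ∧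
      (∀ (i j : ℕ) (hi : i < x.length) (hj : j < x.length), i < j → w {x[i], x[j]} = τ.wt i j) ∧
      ∀ s : List Bool, s.length = x.length → M (sub x s) = τ.ord s

end Pool.Agent.NH65.CX
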