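import Pool.Agent.NH65.CX.CoxDef

/-!
# Facets all of whose irreducible components have even rank
-/

set_option autoImplicit false

namespace Pool.Agent.NH65.CX

/-- `T` has an odd part all of whose edges to the rest of `T` have weight `2`, i.e. the Coxeter group `W_T` has an
irreducible component of odd rank -/
def OddComp {V : Type} [DecidableEq V] (w : Finset V → ℕ) (T : Finset V) : Prop :=
  ∃ A ⊆ T, Odd A.card ∧ ∀ x ∈ A, ∀ y ∈ T, y ∉ A → w {x, y} = 2

open Classical in
/-- the number of the members `T` of `F` with `n` elements for which all the irreducible components of the Coxeter group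
`W_T` have even rank -/
noncomputable def evenFacets {V : Type} [DecidableEq V] (w : Finset V → ℕ) (n : ℕ) (F : Finset (Finset V)) : ℕ :=
  (F.filter (fun T => T.card = n ∧ ¬ OddComp w T)).card

end Pool.Agent.NH65.CX
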