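import Pool.Agent.NH65.CX.Tab0
import Pool.Agent.V11177.CW.Main

/-!
# The gap between the weighted and the right-angled quantities for the factor class and the class `Cls`
-/

set_option autoImplicit false
set_option linter.unusedSectionVars false

namespace Pool.Agent.NH65.CX

open Finset Pool.Agent.W497.FS Pool.Agent.TH709.GG
open V11177.CW (CDL cdl kg_of)
open Y365.FS (bN GoodOrders weighted_eq)

variable {α : Type} [DecidableEq α] {H : SimpleGraph α}

theorem gap {m : ℕ} (hm : 0 < m) {W : Finset α} (hcard : ∀ T ∈ cl H W, T.card ≤ 2 * m) (hK : CDL H (2 * m) W)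
    {w : Finset α → ℕ} {M : Finset α → ℚ} (hN : CoxOrders H w M) :
    0 ≤ (-1) ^ m * lam H W ∧
    (-1) ^ m * lam H W + evenFacets w (2 * m) (cl H W) * (1 / 16) ^ m ≤
      (-1) ^ m * ∑ σ ∈ cl H W, (-1) ^ σ.card / M σ := by
  classical
  have hgood := hN.good W
  have h0 : (∅ : Finset α) ∈ cl H W := mem_cl.2 ⟨Finset.empty_subset _, by simp⟩
  have hlk : lkF H W ∅ = W := by
    ext x
    rw [mem_lkF]
    simp
  refine ⟨by have := hK ∅ h0 m (by simp); rwa [hlk] at this, ?_⟩
  rw [weighted_eq, Finset.mul_sum]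
  have h1 : (-1 : ℚ) ^ m * lam H W + evenFacets w (2 * m) (cl H W) * (1 / 16) ^ m =
      ∑ T ∈ cl H W, ((if T = ∅ then (-1 : ℚ) ^ m * lam H W else 0) +
        (if T.card = 2 * m ∧ ¬ OddComp w T then (1 / 16 : ℚ) ^ m else 0)) := by
    rw [Finset.sum_add_distrib, Finset.sum_ite_eq' (cl H W) ∅, if_pos h0, ← Finset.sum_filter, Finset.sum_const,
      nsmul_eq_mul, evenFacets]
  rw [h1]
  refine Finset.sum_le_sum fun T hT => ?_
  have hc := hcard T hT
  have hTc : H.IsClique (T : Set α) := fun x hx y hy hxy => (mem_cl.1 hT).2 x hx y hy hxy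
  rcases T.eq_empty_or_nonempty with rfl | hne
  · have hb : bN M (∅ : Finset α) = 1 := by simp [bN, hN.empty]
    rw [if_pos rfl, if_neg (by rw [Finset.card_empty]; omega), hb, hlk]
    simp
  · rw [if_neg hne.ne_empty, zero_add]
    split_ifs with h2
    · -- facets
      have hlk' : lkF H W T = ∅ := by
        rw [Finset.eq_empty_iff_forall_notMem]
        intro v hv
        rw [mem_lkF] at hv
        have h3 : v ∉ T := fun h => (hv.2 v h).ne rfl
        have h4 : insert v T ∈ cl H W := by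
          rw [mem_cl]
          refine ⟨Finset.insert_subset hv.1 (mem_cl.1 hT).1, fun x hx y hy hxy => ?_⟩
          rw [Finset.mem_insert] at hx hy
          rcases hx with rfl | hx
          · rcases hy with rfl | hy
            · exact absurd rfl hxy
            · exact (hv.2 y hy).symm
          · rcases hy with rfl | hy
            · exact hv.2 x hx
            · exact (mem_cl.1 hT).2 x hx y hy hxy
        have h5 := hcard _ h4
        rw [Finset.card_insert_of_notMem h3] at h5
        omega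
      have h3 := hN.low T.card T rfl hTc h2.2 m h2.1
      have h4 : (-1 : ℚ) ^ T.card = 1 := by rw [h2.1]; exact Even.neg_one_pow ⟨m, by ring⟩
      rw [hlk', lam_empty, h4]
      linarith
    · rcases Nat.even_or_odd T.card with ⟨j, hj⟩ | ho
      · obtain ⟨l, hl⟩ : ∃ l, m = j + l := ⟨m - j, by omega⟩
        have h3 := (hgood T hT).2 j (by omega)
        have h4 := hK T hT l (by omega)
        have h5 : (-1 : ℚ) ^ m * ((-1) ^ T.card * bN M T * lam H (lkF H W T)) =
            ((-1) ^ j * bN M T) * ((-1) ^ l * lam H (lkF H W T)) := by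
          have h6 : (-1 : ℚ) ^ T.card = 1 := by rw [hj]; exact Even.neg_one_pow ⟨j, rfl⟩
          rw [hl, h6, pow_add]; ring
        rw [h5]
        exact mul_nonneg h3 h4
      · rw [(hgood T hT).1 ho]
        simp

/-- spheres over any field -/
theorem gap_sphere {k : Type} [Field k] {n m : ℕ} (hm : 0 < m) {S : Finset (Finset (Fin n))}
    (h : IsFlagSphere k (2 * m) S)
    (hC : ∀ C, IsFactor S C → (∀ F ∈ S, F ⊆ C → F.card ≤ 3) ∨
      (∃ F ∈ S, F ⊆ C ∧ C.card ≤ max (2 * F.card + 6) (3 * F.card)) ∨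
      ∃ F ∈ S, F ⊆ C ∧ Cls F.card (Fin n) (skel S) C)
    {w : Finset (Fin n) → ℕ} {M : Finset (Fin n) → ℚ} (hN : CoxOrders (skel S) w M) :
    0 ≤ (-1) ^ m * ∑ σ ∈ S, (-1 / 2 : ℚ) ^ σ.card ∧
    (-1) ^ m * ∑ σ ∈ S, (-1 / 2 : ℚ) ^ σ.card + evenFacets w (2 * m) S * (1 / 16) ^ m ≤
      (-1) ^ m * ∑ σ ∈ S, (-1) ^ σ.card / M σ := by
  have h1 := gap hm (fun T hT => h.np.card_le hT) (cdl h.np h.eul (kg_of h hC)) hN
  rw [lam, fe, h.cl_eq] at h1
  exact h1

end Pool.Agent.NH65.CX
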