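import Pool.Agent.R703.MO.ClassDef
import Pool.Agent.TH709.GG.ClsDef

/-!
# Spheres with the Morse property of the links: definitions
-/

set_option autoImplicit false

namespace Pool.Agent.NH65.CX

open Finset Pool.Agent.W907.SG Pool.Agent.W907.SM Pool.Agent.R703.MO
open Pool.Agent.W497.FS (lkF)
open Pool.Agent.TH709.GG (Cls)

/-- For each degree `i > n / 2` there is a system of slopes of `G` on a nonempty finite set such that for all points
`x` and all cliques `S` of flat directions at `x` with `|S| ≤ i` the flag complex on the ascending directions at `x`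
adjacent to all the elements of `S` has no reduced real homology in the degree `i - |S| - 1`. -/
def HasSlopes (n : ℕ) {V : Type} [Fintype V] [LinearOrder V] (G : SimpleGraph V) : Prop :=
  ∀ i : ℕ, n < 2 * i → ∃ (X : Type) (_ : Finite X) (_ : Nonempty X) (D : Slope G X), ∀ (x : X) (S : Finset V),
    G.IsClique (S : Set V) → (∀ s ∈ S, D.dir s x = 0) → ∀ j, i = j + S.card → HomZero G (D.Asc S x) j

/-- the link of `T` in the flag complex of `G` has the Morse property `HasSlopes`, or is in the class `MQ`, or in the
class `Cls` (of the expected length) -/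
def GoodLk (n : ℕ) {V : Type} [Fintype V] [LinearOrder V] (G : SimpleGraph V) (T : Finset V) : Prop :=
  (∀ [Fintype ↥(lk G T)], HasSlopes (n - T.card) (G.induce (lk G T))) ∨
    MQ ((n - T.card) / 2 + 1) (G.induce (lk G T)) ∨ Cls (n - T.card) V G (lkF G Finset.univ T)

/-- `T` has an odd part all of whose edges to the rest of `T` have weight `2`. -/
def OddPart {V : Type} [DecidableEq V] (w : Finset V → ℕ) (T : Finset V) : Prop :=
  ∃ A ⊆ T, Odd A.card ∧ ∀ x ∈ A, ∀ y ∈ T, y ∉ A → w {x, y} = 2

end Pool.Agent.NH65.CX
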