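import Pool.Agent.R703.MO.Gam
import Pool.Agent.NH65.CX.Base
import Pool.Agent.NH65.CX.MrsDef

/-!
# Coxeter weights on spheres with the Morse property of the links
-/

set_option autoImplicit false
set_option linter.unusedSectionVars false

namespace Pool.Agent.NH65.CX

open Finset Pool.Agent.W907.SG Pool.Agent.W907.SM Pool.Agent.R703.MO
open Pool.Agent.TH652.Above (HSph chi_sign)
open Pool.Agent.W497.FS (cl lam lkF mem_cl mem_lkF cl_of_subset)
open Pool.Agent.TH709.GG (Cls)
open Pool.Agent.R703.CW (Orders omegaN chiW_eq mem_cl_univ card_le_of_hsph hsph_link chiW_link Heavy cd_of_cls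
  flagEul_of_hsph mono omegaN_eq)
open Y365.FS (ordM)

variable {V : Type} [Fintype V] [LinearOrder V] {G : SimpleGraph V}

/-- the inequality for the sphere -/
theorem cd_mrs {m : ℕ} (hS : HSph (2 * m) G)
    (h : HasSlopes (2 * m) G ∨ MQ (m + 1) G ∨ Cls (2 * m) V G Finset.univ) : 0 ≤ (-1 : ℚ) ^ m * chiW G := by
  rcases h with h | h | h
  · exact chi_sign G fun i hi => singer_slopes hS h i (by omega)
  · exact charney_davis_MQ hS h
  · rw [chiW_eq]
    exact cd_of_cls h

/-- the inequality for the links -/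
theorem cd_mrs_link {m : ℕ} (hS : HSph (2 * m) G) (T : Finset V) (hT : G.IsClique (T : Set V))
    {j l : ℕ} (hj : T.card = 2 * j) (hl : j + l = m) (hL : T.card + 4 ≤ 2 * m → GoodLk (2 * m) G T) :
    0 ≤ (-1) ^ l * lam G (lkF G Finset.univ T) := by
  classical
  have hfin : Fintype ↥(lk G T) := Fintype.ofFinite _
  have h1 := hsph_link hS T hT
  have h3 : 2 * m - T.card = 2 * l := by omega
  rw [h3] at h1
  rcases Nat.lt_or_ge l 2 with hl2 | hl2
  · rw [← chiW_link T, chiW_eq]
    exact cd_of_cls (Pool.Agent.TH709.GG.Cls.small (by omega) (flagEul_of_hsph h1))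
  · rcases hL (by omega) with h2 | h2 | h2
    · rw [h3] at h2
      rw [← chiW_link T]
      exact cd_mrs h1 (Or.inl h2)
    · rw [h3, Nat.mul_div_cancel_left _ (by norm_num : 0 < 2)] at h2
      rw [← chiW_link T]
      exact cd_mrs h1 (Or.inr (Or.inl h2))
    · rw [h3] at h2
      exact cd_of_cls h2

end Pool.Agent.NH65.CX
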