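import Pool.Agent.NH65.CX.CoxDef

/-!
# The Charney–Davis numbers of the finite irreducible Coxeter groups

The orders of the parabolic subgroups of the finite irreducible Coxeter groups and the sign of the sums
`∑ (-1/2)^|T \ U| / |W_U|`, `U ⊆ T`. For the type `A` these sums are the coefficients of `2 tanh (x / 2)`, for the
type `B` those of `sech (x / 2)`, and for the type `D` those of `2 sech (x / 2) - 2 + (x / 2) tanh (x / 2)`.
-/

set_option autoImplicit false

namespace Pool.Agent.NH65.CX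

open Finset PowerSeries

/-! ### sums over lists of booleans -/

/-- the sum of `F` over all the lists of booleans of length `n` -/
def tot : ℕ → (List Bool → ℚ) → ℚ
  | 0, F => F []
  | n + 1, F => tot n (fun s => F (true :: s)) + tot n (fun s => F (false :: s))

/-- the Charney–Davis number of the type `τ` in rank `n` -/
def bT (τ : Typ) (n : ℕ) : ℚ := tot n fun s => (-1 / 2) ^ s.count false / (τ.ord s : ℚ)

theorem tot_mul (c : ℚ) : ∀ (n : ℕ) (F : List Bool → ℚ), tot n (fun s => c * F s) = c * tot n F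
  | 0, F => rfl
  | n + 1, F => by rw [tot, tot, tot_mul c n, tot_mul c n, mul_add]

theorem tot_congr : ∀ (n : ℕ) (F F' : List Bool → ℚ), (∀ s, s.length = n → F s = F' s) → tot n F = tot n F'
  | 0, F, F', h => h [] rfl
  | n + 1, F, F', h => by
    rw [tot, tot, tot_congr n _ _ fun s hs => h (true :: s) (by simp [hs]),
      tot_congr n _ _ fun s hs => h (false :: s) (by simp [hs])]

theorem ordPA_eq : ∀ (l : List Bool) (k : ℕ), ordPA k l = ordP gA k l
  | [], k => rfl
  | true :: l, k => by rw [ordPA, ordP, ordPA_eq l]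
  | false :: l, k => by rw [ordPA, ordP]

/-- the sums for paths -/
def P (g : ℕ → ℕ) (k n : ℕ) : ℚ := tot n fun s => (-1 / 2) ^ s.count false / (ordP g k s : ℚ)

theorem P_zero (g : ℕ → ℕ) (k : ℕ) : P g k 0 = 1 / g k := by
  simp [P, tot, ordP]

theorem P_succ (g : ℕ → ℕ) (k n : ℕ) : P g k (n + 1) = P g (k + 1) n + (-1 / 2) * (1 / g k) * P gA 0 n := by
  rw [P, tot]
  congr 1
  rw [P, ← tot_mul]
  refine tot_congr _ _ _ fun s _ => ?_
  rw [ordP, ordPA_eq, List.count_cons_self, pow_succ]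
  push_cast
  rw [mul_comm (g k : ℚ), div_mul_eq_div_div_swap]
  ring

theorem P_eq (g : ℕ → ℕ) : ∀ (n k : ℕ), P g k n =
    1 / g (k + n) - 1 / 2 * ∑ i ∈ range n, (1 / (g (k + i) : ℚ)) * P gA 0 (n - 1 - i)
  | 0, k => by simp [P_zero]
  | n + 1, k => by
    rw [P_succ, P_eq g n (k + 1), Finset.sum_range_succ', show k + 1 + n = k + (n + 1) by omega]
    have h : ∑ i ∈ range n, (1 / (g (k + 1 + i) : ℚ)) * P gA 0 (n - 1 - i) =
        ∑ i ∈ range n, (1 / (g (k + (i + 1)) : ℚ)) * P gA 0 (n + 1 - 1 - (i + 1)) := by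
      refine Finset.sum_congr rfl fun i hi => ?_
      rw [show k + 1 + i = k + (i + 1) by omega, show n - 1 - i = n + 1 - 1 - (i + 1) by omega]
    rw [h]
    simp only [add_zero, Nat.add_sub_cancel, Nat.sub_zero]
    ring

/-! ### power series -/

/-- the generating function of the type `A` -/
noncomputable def sA : ℚ⟦X⟧ := PowerSeries.mk fun n => P gA 0 n

/-- the generating function of the type `B` -/
noncomputable def sB : ℚ⟦X⟧ := PowerSeries.mk fun n => P gB 0 n

theorem mk_P (g : ℕ → ℕ) : PowerSeries.mk (fun n => P g 0 n) =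
    PowerSeries.mk (fun n => 1 / (g n : ℚ)) * (1 - PowerSeries.C (1 / 2 : ℚ) * (sA * X)) := by
  ext n
  rw [mul_sub, mul_one, map_sub, coeff_mk, coeff_mk, P_eq, zero_add]
  congr 1
  rw [← mul_assoc, mul_comm (PowerSeries.mk _) (PowerSeries.C _), mul_assoc, coeff_C_mul, ← mul_assoc]
  congr 1
  cases n with
  | zero => simp
  | succ n =>
    rw [coeff_succ_mul_X, coeff_mul, Finset.Nat.sum_antidiagonal_eq_sum_range_succ_mk]
    refine Finset.sum_congr rfl fun i hi => ?_
    rw [coeff_mk, sA, coeff_mk, zero_add]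
    rfl

theorem half_exp : (PowerSeries.mk fun n => 1 / (gB n : ℚ)) = PowerSeries.rescale (1 / 2 : ℚ) (PowerSeries.exp ℚ) := by
  ext n
  rw [coeff_mk, PowerSeries.coeff_rescale, PowerSeries.coeff_exp, gB]
  rw [one_div_pow]
  simp [mul_comm]

theorem full_exp : (PowerSeries.mk fun n => 1 / (gA n : ℚ)) * X = PowerSeries.exp ℚ - 1 := by
  ext n
  cases n with
  | zero => simp
  | succ n =>
    rw [coeff_succ_mul_X, coeff_mk, map_sub, PowerSeries.coeff_exp, gA]
    simp [PowerSeries.coeff_one]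

/-- `y (1 + e) = 2 (e - 1)` for `y = X sA` -/
theorem eq_y : (sA * X) * (1 + PowerSeries.exp ℚ) = 2 * (PowerSeries.exp ℚ - 1) := by
  have h1 : sA = PowerSeries.mk (fun n => 1 / (gA n : ℚ)) * (1 - PowerSeries.C (1 / 2 : ℚ) * (sA * X)) := by
    conv_lhs => rw [sA, mk_P]
  have h2 := full_exp
  have h3 : (PowerSeries.C (1 / 2 : ℚ) : ℚ⟦X⟧) * 2 = 1 := by
    have : (2 : ℚ⟦X⟧) = PowerSeries.C (2 : ℚ) := rfl
    rw [this, ← map_mul]; norm_num
  have h4 : sA * X = (PowerSeries.exp ℚ - 1) * (1 - PowerSeries.C (1 / 2 : ℚ) * (sA * X)) := by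
    conv_lhs => rw [h1]
    rw [← h2]; ring
  linear_combination 2 * h4 + (-(PowerSeries.exp ℚ - 1) * (sA * X)) * h3

/-- `4 y' = 4 - y^2` -/
theorem ode_y : 4 * d⁄dX ℚ (sA * X) = 4 - (sA * X) ^ 2 := by
  have h1 := eq_y
  have h2 := congrArg (fun f => d⁄dX ℚ f) eq_y
  simp only [Derivation.leibniz, map_add, map_sub, Derivation.map_one_eq_zero, PowerSeries.derivative_exp,
    smul_eq_mul, zero_add, sub_zero] at h2
  have h20 : d⁄dX ℚ (2 : ℚ⟦X⟧) = 0 := by
    have : (2 : ℚ⟦X⟧) = 1 + 1 := by norm_num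
    rw [this, map_add, Derivation.map_one_eq_zero, add_zero]
  rw [h20, mul_zero, add_zero] at h2
  have h3 : (1 + PowerSeries.exp ℚ : ℚ⟦X⟧) ≠ 0 := by
    intro h
    have := congrArg PowerSeries.constantCoeff h
    simp at this
  have h4 : d⁄dX ℚ (sA * X) = sA * d⁄dX ℚ X + X * d⁄dX ℚ sA := by
    rw [Derivation.leibniz]; simp [smul_eq_mul]
  refine mul_left_cancel₀ h3 ?_
  rw [h4]
  linear_combination 4 * h2 + (sA * X - 2) * h1

theorem ode_z : 4 * d⁄dX ℚ sB = - ((sA * X) * sB) ∧ 4 * sB ^ 2 = 4 - (sA * X) ^ 2 := by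
  obtain ⟨F, hF⟩ : ∃ F, F = PowerSeries.rescale (1 / 2 : ℚ) (PowerSeries.exp ℚ) := ⟨_, rfl⟩
  have h1 : sB = F * (1 - PowerSeries.C (1 / 2 : ℚ) * (sA * X)) := by
    rw [sB, mk_P, half_exp, hF]
  have h3 : (PowerSeries.C (1 / 2 : ℚ) : ℚ⟦X⟧) * 2 = 1 := by
    have : (2 : ℚ⟦X⟧) = PowerSeries.C (2 : ℚ) := rfl
    rw [this, ← map_mul]; norm_num
  have hF2 : F ^ 2 = PowerSeries.exp ℚ := by
    rw [hF, ← map_pow, PowerSeries.exp_pow_eq_rescale_exp, PowerSeries.rescale_rescale]
    norm_num
  have hFd : 2 * d⁄dX ℚ F = F := by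
    ext n
    have h5 : (2 : ℚ⟦X⟧) = PowerSeries.C (2 : ℚ) := rfl
    rw [h5, coeff_C_mul, PowerSeries.coeff_derivative, hF, PowerSeries.coeff_rescale, PowerSeries.coeff_rescale,
      PowerSeries.coeff_exp, PowerSeries.coeff_exp, Nat.factorial_succ, pow_succ]
    simp only [eq_ratCast, Rat.cast_id]
    push_cast
    have h6 : ((n : ℚ) + 1) ≠ 0 := by positivity
    have h7 : (n.factorial : ℚ) ≠ 0 := by positivity
    field_simp
  have h4 : 2 * sB = F * (2 - sA * X) := by
    rw [h1]
    linear_combination (-(F * (sA * X))) * h3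
  have h20 : d⁄dX ℚ (2 : ℚ⟦X⟧) = 0 := by
    have : (2 : ℚ⟦X⟧) = 1 + 1 := by norm_num
    rw [this, map_add, Derivation.map_one_eq_zero, add_zero]
  have h5 : 2 * d⁄dX ℚ sB = F * (- d⁄dX ℚ (sA * X)) + (2 - sA * X) * d⁄dX ℚ F := by
    have h6 := congrArg (fun f => d⁄dX ℚ f) h4
    rw [Derivation.leibniz, Derivation.leibniz, map_sub, h20] at h6
    simp only [smul_eq_mul, mul_zero, add_zero, zero_sub] at h6
    exact h6
  constructor
  · have h7 : (2 : ℚ⟦X⟧) ≠ 0 := by
      intro h
      have := congrArg PowerSeries.constantCoeff h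
      rw [map_ofNat, map_zero] at this
      norm_num at this
    refine mul_left_cancel₀ h7 ?_
    linear_combination 4 * h5 + 2 * (2 - sA * X) * hFd - F * ode_y + (sA * X) * h4
  · linear_combination (2 * sB + F * (2 - sA * X)) * h4 + (2 - sA * X) ^ 2 * hF2 - (2 - sA * X) * eq_y

/-! ### signs -/

/-- the sign pattern at `n` -/
def PS (f : ℕ → ℚ) (n : ℕ) : Prop := (Odd n → f n = 0) ∧ ∀ j, n = 2 * j → 0 ≤ (-1) ^ j * f n

theorem conv_sign (f g : ℕ → ℚ) (N : ℕ) (hf : ∀ i ≤ N, PS f i) (hg : ∀ i ≤ N, PS g i) :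
    PS (fun n => ∑ p ∈ antidiagonal n, f p.1 * g p.2) N := by
  constructor
  · intro ho
    refine Finset.sum_eq_zero fun p hp => ?_
    rw [HasAntidiagonal.mem_antidiagonal] at hp
    rcases Nat.even_or_odd p.1 with h | h
    · have h2 : Odd p.2 := by
        rw [← hp] at ho
        exact (Nat.odd_add'.1 ho).2 h
      rw [(hg p.2 (by omega)).1 h2, mul_zero]
    · rw [(hf p.1 (by omega)).1 h, zero_mul]
  · intro J hJ
    rw [Finset.mul_sum]
    refine Finset.sum_nonneg fun p hp => ?_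
    rw [HasAntidiagonal.mem_antidiagonal] at hp
    rcases Nat.even_or_odd p.1 with ⟨a, ha⟩ | h
    · obtain ⟨b, hb⟩ : ∃ b, p.2 = 2 * b := ⟨J - a, by omega⟩
      have h1 := (hf p.1 (by omega)).2 a (by omega)
      have h2 := (hg p.2 (by omega)).2 b hb
      have h3 : (-1 : ℚ) ^ J * (f p.1 * g p.2) = ((-1) ^ a * f p.1) * ((-1) ^ b * g p.2) := by
        rw [show J = a + b by omega, pow_add]; ring
      rw [h3]
      exact mul_nonneg h1 h2
    · rw [(hf p.1 (by omega)).1 h, zero_mul, mul_zero]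

theorem signA : ∀ n, PS (fun n => P gA 0 n) n := by
  intro n
  induction n using Nat.strong_induction_on with
  | _ n ih =>
    have h1 := congrArg (PowerSeries.coeff n) ode_y
    have h4 : (4 : ℚ⟦X⟧) = PowerSeries.C (4 : ℚ) := rfl
    rw [h4, coeff_C_mul, PowerSeries.coeff_derivative, coeff_succ_mul_X, map_sub,
      show (sA * X) ^ 2 = (sA ^ 2 * X) * X by ring, sA, coeff_mk] at h1
    rcases n with _ | _ | m
    · refine ⟨fun h => absurd h (by decide), fun j hj => ?_⟩
      obtain rfl : j = 0 := by omega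
      simp [P_zero, gA]
    · refine ⟨fun _ => ?_, fun j hj => by omega⟩
      rw [coeff_succ_mul_X] at h1
      simp [PowerSeries.coeff_C] at h1
      exact h1
    · rw [coeff_succ_mul_X, coeff_succ_mul_X, PowerSeries.coeff_C, if_neg (by omega), zero_sub, pow_two, coeff_mul] at h1
      simp only [coeff_mk] at h1
      have h5 := conv_sign (fun n => P gA 0 n) (fun n => P gA 0 n) m (fun i hi => ih i (by omega))
        (fun i hi => ih i (by omega))
      have h6 : (0 : ℚ) < 4 * ((m : ℚ) + 3) := by positivity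
      have h7 : P gA 0 (m + 2) * (4 * ((m : ℚ) + 3)) =
          - ∑ p ∈ antidiagonal m, P gA 0 p.1 * P gA 0 p.2 := by
        rw [← h1]; push_cast; ring
      constructor
      · intro ho
        have h8 := h5.1 (by
          rw [Nat.odd_iff] at ho ⊢; omega)
        dsimp only at h8 ⊢
        rw [h8, neg_zero] at h7
        exact (mul_eq_zero.1 h7).resolve_right h6.ne'
      · intro j hj
        obtain ⟨i, rfl⟩ : ∃ i, j = i + 1 := ⟨j - 1, by omega⟩
        have h8 := h5.2 i (by omega)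
        dsimp only at h8 ⊢
        have h9 : 0 ≤ ((-1) ^ (i + 1) * P gA 0 (m + 2)) * (4 * ((m : ℚ) + 3)) := by
          rw [mul_assoc, h7, pow_succ]
          linarith
        exact nonneg_of_mul_nonneg_left h9 h6

theorem signB : ∀ n, PS (fun n => P gB 0 n) n := by
  intro n
  induction n using Nat.strong_induction_on with
  | _ n ih =>
    rcases n with _ | n
    · refine ⟨fun h => absurd h (by decide), fun j hj => ?_⟩
      obtain rfl : j = 0 := by omega
      simp [P_zero, gB]
    have h1 := congrArg (PowerSeries.coeff n) ode_z.1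
    have h4 : (4 : ℚ⟦X⟧) = PowerSeries.C (4 : ℚ) := rfl
    rw [h4, coeff_C_mul, PowerSeries.coeff_derivative, sB, coeff_mk, map_neg,
      show sA * X * PowerSeries.mk (fun n => P gB 0 n) = (sA * PowerSeries.mk (fun n => P gB 0 n)) * X by ring] at h1
    rcases n with _ | m
    · refine ⟨fun _ => ?_, fun j hj => by omega⟩
      simp at h1
      exact h1
    · rw [coeff_succ_mul_X, coeff_mul, sA] at h1
      simp only [coeff_mk] at h1
      have h5 := conv_sign (fun n => P gA 0 n) (fun n => P gB 0 n) m (fun i hi => signA i)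
        (fun i hi => ih i (by omega))
      have h6 : (0 : ℚ) < 4 * ((m : ℚ) + 2) := by positivity
      have h7 : P gB 0 (m + 2) * (4 * ((m : ℚ) + 2)) =
          - ∑ p ∈ antidiagonal m, P gA 0 p.1 * P gB 0 p.2 := by
        rw [← h1]; push_cast; ring
      constructor
      · intro ho
        have h8 := h5.1 (by
          rw [Nat.odd_iff] at ho ⊢; omega)
        dsimp only at h8 ⊢
        rw [h8, neg_zero] at h7
        exact (mul_eq_zero.1 h7).resolve_right h6.ne'
      · intro j hj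
        obtain ⟨i, rfl⟩ : ∃ i, j = i + 1 := ⟨j - 1, by omega⟩
        have h8 := h5.2 i (by omega)
        dsimp only at h8 ⊢
        have h9 : 0 ≤ ((-1) ^ (i + 1) * P gB 0 (m + 2)) * (4 * ((m : ℚ) + 2)) := by
          rw [mul_assoc, h7, pow_succ]
          linarith
        exact nonneg_of_mul_nonneg_left h9 h6

end Pool.Agent.NH65.CX
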