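import Pool.Agent.NH65.CX.Num

/-!
# The Charney–Davis numbers of the finite irreducible Coxeter groups: type `D` and the exceptional types
-/

set_option autoImplicit false

namespace Pool.Agent.NH65.CX

open Finset PowerSeries

/-- four times the generating function of the type `D` -/
noncomputable def sE : ℚ⟦X⟧ := 8 * sB - 8 + X * (sA * X)

theorem ode_E : 8 * d⁄dX ℚ (d⁄dX ℚ sE) = - (16 * (sB * (sB - 1))) - 4 * (sB * (sB * sE)) := by
  obtain ⟨y, hy⟩ : ∃ y, y = sA * X := ⟨_, rfl⟩
  have hd := ode_y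
  have hc := ode_z.1
  have he := ode_z.2
  rw [← hy] at hd hc he
  have h4 : d⁄dX ℚ (4 : ℚ⟦X⟧) = 0 := by
    have : (4 : ℚ⟦X⟧) = PowerSeries.C (4 : ℚ) := rfl
    rw [this, derivative_C]
  have h8 : d⁄dX ℚ (8 : ℚ⟦X⟧) = 0 := by
    have : (8 : ℚ⟦X⟧) = PowerSeries.C (8 : ℚ) := rfl
    rw [this, derivative_C]
  have ha : 4 * d⁄dX ℚ (d⁄dX ℚ sB) = - (d⁄dX ℚ y * sB + y * d⁄dX ℚ sB) := by
    have h := congrArg (fun f => d⁄dX ℚ f) hc
    rw [Derivation.leibniz, h4, Derivation.map_neg, Derivation.leibniz] at h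
    simp only [smul_eq_mul, mul_zero, add_zero] at h
    rw [h]; ring
  have hb : 4 * d⁄dX ℚ (d⁄dX ℚ y) = - (2 * y * d⁄dX ℚ y) := by
    have h := congrArg (fun f => d⁄dX ℚ f) hd
    rw [Derivation.leibniz, h4, map_sub, h4, pow_two, Derivation.leibniz] at h
    simp only [smul_eq_mul, mul_zero, add_zero, zero_sub] at h
    rw [h]; ring
  have h1 : d⁄dX ℚ sE = 8 * d⁄dX ℚ sB + (X * d⁄dX ℚ y + y) := by
    rw [sE, ← hy, map_add, map_sub, Derivation.leibniz, Derivation.leibniz, h8, derivative_X]
    simp only [smul_eq_mul, mul_zero, add_zero, sub_zero, mul_one]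
  have h2 : d⁄dX ℚ (d⁄dX ℚ sE) = 8 * d⁄dX ℚ (d⁄dX ℚ sB) + (X * d⁄dX ℚ (d⁄dX ℚ y) + 2 * d⁄dX ℚ y) := by
    rw [h1, map_add, map_add, Derivation.leibniz, Derivation.leibniz, h8, derivative_X]
    simp only [smul_eq_mul, mul_zero, add_zero, mul_one]
    ring
  rw [h2, sE, ← hy]
  linear_combination 16 * ha + 2 * X * hb + (4 - 4 * sB - X * y) * hd + (-4 * y) * hc + (8 * sB - 4 + X * y) * he

theorem coeff_E (n : ℕ) : PowerSeries.coeff n sE =
    8 * P gB 0 n - (if n = 0 then 8 else 0) + (if 2 ≤ n then P gA 0 (n - 2) else 0) := by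
  have h8 : (8 : ℚ⟦X⟧) = PowerSeries.C (8 : ℚ) := rfl
  rw [sE, map_add, map_sub]
  congr 1
  · rw [h8, coeff_C_mul, PowerSeries.coeff_C, sB, coeff_mk]
  · rw [show X * (sA * X) = (sA * X) * X by ring]
    rcases n with _ | _ | n
    · simp
    · rw [coeff_succ_mul_X]
      simp
    · rw [coeff_succ_mul_X, coeff_succ_mul_X, sA, coeff_mk, if_pos (by omega)]
      rfl

theorem signE : ∀ n, PS (fun n => PowerSeries.coeff n sE) n := by
  intro n
  induction n using Nat.strong_induction_on with
  | _ n ih =>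
    rcases n with _ | _ | n
    · have h : PowerSeries.coeff 0 sE = 0 := by
        rw [coeff_E]; simp [P_zero, gB]
      refine ⟨fun _ => h, fun j _ => ?_⟩
      dsimp only
      rw [h, mul_zero]
    · have h : PowerSeries.coeff 1 sE = 0 := by
        rw [coeff_E]
        have := (signB 1).1 (by decide)
        dsimp only at this
        simp [this]
      refine ⟨fun _ => h, fun j _ => ?_⟩
      dsimp only
      rw [h, mul_zero]
    · have h1 := congrArg (PowerSeries.coeff n) ode_E
      have h8 : (8 : ℚ⟦X⟧) = PowerSeries.C (8 : ℚ) := rfl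
      have h16 : (16 : ℚ⟦X⟧) = PowerSeries.C (16 : ℚ) := rfl
      have h4 : (4 : ℚ⟦X⟧) = PowerSeries.C (4 : ℚ) := rfl
      rw [map_sub, map_neg, h8, h16, h4, coeff_C_mul, coeff_C_mul, coeff_C_mul, PowerSeries.coeff_derivative,
        PowerSeries.coeff_derivative, coeff_mul, coeff_mul] at h1
      -- the two convolutions
      have hz : ∀ i, PowerSeries.coeff i sB = P gB 0 i := fun i => by rw [sB, coeff_mk]
      have hB : ∀ i, PS (fun n => PowerSeries.coeff n sB) i := fun i => by
        have := signB i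
        simp only [hz]
        exact this
      have hu : ∀ i, PS (fun n => PowerSeries.coeff n (sB - 1)) i := by
        intro i
        rcases i with _ | i
        · have h : PowerSeries.coeff 0 (sB - 1) = 0 := by
            rw [map_sub, hz, P_zero]; simp [gB]
          refine ⟨fun _ => h, fun j _ => ?_⟩
          dsimp only
          rw [h, mul_zero]
        · have h : PowerSeries.coeff (i + 1) (sB - 1) = PowerSeries.coeff (i + 1) sB := by
            rw [map_sub, PowerSeries.coeff_one, if_neg (by omega), sub_zero]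
          have h2 := hB (i + 1)
          refine ⟨fun ho => ?_, fun j hj => ?_⟩
          · dsimp only; rw [h]; exact h2.1 ho
          · dsimp only; rw [h]; exact h2.2 j hj
      have hc1 := conv_sign (fun n => PowerSeries.coeff n sB) (fun n => PowerSeries.coeff n (sB - 1)) n
        (fun i _ => hB i) (fun i _ => hu i)
      have hc2 : ∀ i ≤ n, PS (fun n => PowerSeries.coeff n (sB * sE)) i := by
        intro i hi
        have := conv_sign (fun n => PowerSeries.coeff n sB) (fun n => PowerSeries.coeff n sE) i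
          (fun i _ => hB i) (fun j hj => ih j (by omega))
        simpa only [coeff_mul] using this
      have hc3 := conv_sign (fun n => PowerSeries.coeff n sB) (fun n => PowerSeries.coeff n (sB * sE)) n
        (fun i _ => hB i) hc2
      have h6 : (0 : ℚ) < 8 * (((n : ℚ) + 2) * ((n : ℚ) + 1)) := by positivity
      have h7 : PowerSeries.coeff (n + 2) sE * (8 * (((n : ℚ) + 2) * ((n : ℚ) + 1))) =
          - (16 * ∑ p ∈ antidiagonal n, PowerSeries.coeff p.1 sB * PowerSeries.coeff p.2 (sB - 1)) -
          4 * ∑ p ∈ antidiagonal n, PowerSeries.coeff p.1 sB * PowerSeries.coeff p.2 (sB * sE) := by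
        rw [← h1]; push_cast; ring
      constructor
      · intro ho
        have ho' : Odd n := by rw [Nat.odd_iff] at ho ⊢; omega
        have a1 := hc1.1 ho'
        have a2 := hc3.1 ho'
        dsimp only at a1 a2 ⊢
        rw [a1, a2, mul_zero, mul_zero, neg_zero, sub_zero] at h7
        exact (mul_eq_zero.1 h7).resolve_right h6.ne'
      · intro j hj
        obtain ⟨i, rfl⟩ : ∃ i, j = i + 1 := ⟨j - 1, by omega⟩
        have a1 := hc1.2 i (by omega)
        have a2 := hc3.2 i (by omega)
        dsimp only at a1 a2 ⊢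
        have h9 : 0 ≤ ((-1) ^ (i + 1) * PowerSeries.coeff (n + 2) sE) * (8 * (((n : ℚ) + 2) * ((n : ℚ) + 1))) := by
          rw [mul_assoc, h7, pow_succ]
          linarith
        exact nonneg_of_mul_nonneg_left h9 h6

theorem P_gD (n : ℕ) : P gD 2 n = 2 * P gB 2 n := by
  have h : ∀ i, (1 / (gD (2 + i) : ℚ)) = 2 * (1 / (gB (2 + i) : ℚ)) := by
    intro i
    rw [gD, gB, show 2 + i - 1 = i + 1 by omega, show 2 + i = (i + 1) + 1 by omega, pow_succ 2 (i + 1)]
    push_cast
    have : ((i + 1 + 1).factorial : ℚ) ≠ 0 := by positivity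
    field_simp
  have hs : ∑ i ∈ range n, (1 / (gD (2 + i) : ℚ)) * P gA 0 (n - 1 - i) =
      2 * ∑ i ∈ range n, (1 / (gB (2 + i) : ℚ)) * P gA 0 (n - 1 - i) := by
    rw [Finset.mul_sum]
    refine Finset.sum_congr rfl fun i _ => ?_
    rw [h]; ring
  rw [P_eq gD, P_eq gB, h n, hs]
  ring

theorem bT_D (n : ℕ) : bT .D (n + 2) = 1 / 4 * PowerSeries.coeff (n + 2) sE := by
  have h1 : bT .D (n + 2) = (P gD 2 n + (-1 / 2) * P gA 1 n) + ((-1 / 2) * P gA 1 n + (-1 / 2) ^ 2 * P gA 0 n) := by
    rw [bT, tot, tot, tot]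
    simp only [P]
    rw [← tot_mul, ← tot_mul]
    congr 1
    · congr 1
      refine tot_congr _ _ _ fun s _ => ?_
      rw [List.count_cons_of_ne (by decide), List.count_cons_self, pow_succ,
        show Typ.D.ord (true :: false :: s) = ordP gA 1 s from rfl]
      ring
    · congr 1
      · refine tot_congr _ _ _ fun s _ => ?_
        rw [List.count_cons_self, List.count_cons_of_ne (by decide), pow_succ,
          show Typ.D.ord (false :: true :: s) = ordP gA 1 s from rfl]
        ring
      · refine tot_congr _ _ _ fun s _ => ?_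
        rw [List.count_cons_self, List.count_cons_self, pow_succ, pow_succ,
          show Typ.D.ord (false :: false :: s) = ordP gA 0 s from rfl]
        ring
  have h2 := P_succ gA 0 n
  have h3 := P_succ gB 0 (n + 1)
  have h4 := P_succ gB (0 + 1) n
  have e1 : (gA 0 : ℚ) = 1 := by norm_num [gA]
  have e2 : (gB 0 : ℚ) = 1 := by norm_num [gB]
  have e3 : (gB (0 + 1) : ℚ) = 2 := by norm_num [gB]
  rw [e1] at h2
  rw [e2] at h3
  rw [e3] at h4
  rw [h1, P_gD, coeff_E, if_neg (by omega), if_pos (by omega), Nat.add_sub_cancel]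
  rw [show (0 : ℕ) + 1 + 1 = 2 from rfl] at h4
  rw [show (0 : ℕ) + 1 = 1 from rfl] at h2 h3 h4
  rw [show n + 1 + 1 = n + 2 from rfl] at h3
  linear_combination 2 * (-h3 - h4) + h2

theorem sign_of {τ : Typ} {n : ℕ} (h : τ.rank n) : PS (bT τ) n := by
  cases τ with
  | A => exact signA n
  | B => exact signB n
  | D =>
    have h' : 4 ≤ n := h
    obtain ⟨k, rfl⟩ : ∃ k, n = k + 2 := ⟨n - 2, by omega⟩
    have h2 := signE (k + 2)
    refine ⟨fun ho => ?_, fun j hj => ?_⟩
    · rw [bT_D]
      have := h2.1 ho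
      dsimp only at this
      rw [this, mul_zero]
    · rw [bT_D]
      have := h2.2 j hj
      dsimp only at this
      linarith
  | E =>
    have h' : n = 6 ∨ n = 7 ∨ n = 8 := h
    rcases h' with rfl | rfl | rfl
    · refine ⟨fun ho => absurd ho (by decide), fun j hj => ?_⟩
      obtain rfl : j = 3 := by omega
      decide +kernel
    · refine ⟨fun _ => ?_, fun j hj => by omega⟩
      decide +kernel
    · refine ⟨fun ho => absurd ho (by decide), fun j hj => ?_⟩
      obtain rfl : j = 4 := by omega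
      decide +kernel
  | F =>
    have h' : n = 4 := h
    subst h'
    refine ⟨fun ho => absurd ho (by decide), fun j hj => ?_⟩
    obtain rfl : j = 2 := by omega
    decide +kernel
  | H =>
    have h' : n = 3 ∨ n = 4 := h
    rcases h' with rfl | rfl
    · refine ⟨fun _ => ?_, fun j hj => by omega⟩
      decide +kernel
    · refine ⟨fun ho => absurd ho (by decide), fun j hj => ?_⟩
      obtain rfl : j = 2 := by omega
      decide +kernel

end Pool.Agent.NH65.CX
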