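import Pool.Agent.NH65.CX.NumD

/-!
# Lower bounds for the Charney–Davis numbers of the finite irreducible Coxeter groups of even rank
-/

set_option autoImplicit false

namespace Pool.Agent.NH65.CX

open Finset PowerSeries

/-- lower bound at `n` -/
def LB (f : ℕ → ℚ) (n : ℕ) : Prop := ∀ j, n = 2 * j → (1 / 12 : ℚ) ^ j ≤ (-1) ^ j * f n

theorem sum_even (C : ℚ) : ∀ J : ℕ, ∑ i ∈ range (2 * J + 1), (if Even i then C else 0) = (J + 1) * C
  | 0 => by simp
  | J + 1 => by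
    have h1 : ¬ Even (2 * J + 1) := by simp
    have h2 : Even (2 * J + 1 + 1) := ⟨J + 1, by ring⟩
    rw [show 2 * (J + 1) + 1 = 2 * J + 1 + 1 + 1 by ring, Finset.sum_range_succ, Finset.sum_range_succ, sum_even C J,
      if_neg h1, if_pos h2]
    push_cast
    ring

theorem conv_low (f g : ℕ → ℚ) (J : ℕ) (hf : ∀ i ≤ 2 * J, PS f i) (_ : ∀ i ≤ 2 * J, PS g i)
    (lf : ∀ i ≤ 2 * J, LB f i) (lg : ∀ i ≤ 2 * J, LB g i) :
    ((J : ℚ) + 1) * (1 / 12) ^ J ≤ (-1) ^ J * ∑ p ∈ antidiagonal (2 * J), f p.1 * g p.2 := by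
  rw [← sum_even, ← Finset.Nat.sum_antidiagonal_eq_sum_range_succ_mk (fun p => if Even p.1 then (1 / 12 : ℚ) ^ J else 0),
    Finset.mul_sum]
  refine Finset.sum_le_sum fun p hp => ?_
  rw [HasAntidiagonal.mem_antidiagonal] at hp
  split_ifs with h
  · obtain ⟨a, ha⟩ := h
    obtain ⟨b, hb⟩ : ∃ b, p.2 = 2 * b := ⟨J - a, by omega⟩
    have h1 := lf p.1 (by omega) a (by omega)
    have h2 := lg p.2 (by omega) b hb
    have h3 : (-1 : ℚ) ^ J * (f p.1 * g p.2) = ((-1) ^ a * f p.1) * ((-1) ^ b * g p.2) := by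
      rw [show J = a + b by omega, pow_add]; ring
    rw [h3, show J = a + b by omega, pow_add]
    exact mul_le_mul h1 h2 (by positivity) ((by positivity : (0 : ℚ) ≤ (1 / 12) ^ a).trans h1)
  · have ho : Odd p.1 := Nat.not_even_iff_odd.1 h
    rw [(hf p.1 (by omega)).1 ho, zero_mul, mul_zero]

theorem recA (m : ℕ) : P gA 0 (m + 2) * (4 * ((m : ℚ) + 3)) =
    - ∑ p ∈ antidiagonal m, P gA 0 p.1 * P gA 0 p.2 := by
  have h1 := congrArg (PowerSeries.coeff (m + 2)) ode_y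
  have h4 : (4 : ℚ⟦X⟧) = PowerSeries.C (4 : ℚ) := rfl
  rw [h4, coeff_C_mul, PowerSeries.coeff_derivative, coeff_succ_mul_X, map_sub,
    show (sA * X) ^ 2 = (sA ^ 2 * X) * X by ring, sA, coeff_mk] at h1
  rw [show m + 2 = (m + 1) + 1 from rfl, coeff_succ_mul_X, coeff_succ_mul_X, PowerSeries.coeff_C, if_neg (by omega),
    zero_sub, pow_two, coeff_mul] at h1
  simp only [coeff_mk] at h1
  rw [← h1]; push_cast; ring

theorem recB (m : ℕ) : P gB 0 (m + 2) * (4 * ((m : ℚ) + 2)) =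
    - ∑ p ∈ antidiagonal m, P gA 0 p.1 * P gB 0 p.2 := by
  have h1 := congrArg (PowerSeries.coeff (m + 1)) ode_z.1
  have h4 : (4 : ℚ⟦X⟧) = PowerSeries.C (4 : ℚ) := rfl
  rw [h4, coeff_C_mul, PowerSeries.coeff_derivative, sB, coeff_mk, map_neg,
    show sA * X * PowerSeries.mk (fun n => P gB 0 n) = (sA * PowerSeries.mk (fun n => P gB 0 n)) * X by ring,
    coeff_succ_mul_X, coeff_mul, sA] at h1
  simp only [coeff_mk] at h1
  rw [← h1]; push_cast; ring

theorem lowA : ∀ n, LB (fun n => P gA 0 n) n := by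
  intro n
  induction n using Nat.strong_induction_on with
  | _ n ih =>
    intro j hj
    rcases j with _ | i
    · subst hj
      simp [P_zero, gA]
    · obtain rfl : n = 2 * i + 2 := by omega
      have h1 := conv_low (fun n => P gA 0 n) (fun n => P gA 0 n) i (fun k _ => signA k) (fun k _ => signA k)
        (fun k hk => ih k (by omega)) (fun k hk => ih k (by omega))
      have h2 := recA (2 * i)
      dsimp only at h1 ⊢
      have h6 : (0 : ℚ) < 4 * (((2 * i : ℕ) : ℚ) + 3) := by positivity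
      have h9 : (1 / 12 : ℚ) ^ (i + 1) * (4 * (((2 * i : ℕ) : ℚ) + 3)) ≤
          ((-1) ^ (i + 1) * P gA 0 (2 * i + 2)) * (4 * (((2 * i : ℕ) : ℚ) + 3)) := by
        rw [mul_assoc, h2, pow_succ, pow_succ]
        have h10 : (0 : ℚ) ≤ (1 / 12) ^ i := by positivity
        have h11 : (0 : ℚ) ≤ (i : ℚ) * (1 / 12) ^ i := by positivity
        push_cast
        nlinarith
      exact le_of_mul_le_mul_right h9 h6

theorem lowB : ∀ n, LB (fun n => P gB 0 n) n := by
  intro n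
  induction n using Nat.strong_induction_on with
  | _ n ih =>
    intro j hj
    rcases j with _ | i
    · subst hj
      simp [P_zero, gB]
    · obtain rfl : n = 2 * i + 2 := by omega
      have h1 := conv_low (fun n => P gA 0 n) (fun n => P gB 0 n) i (fun k _ => signA k) (fun k _ => signB k)
        (fun k _ => lowA k) (fun k hk => ih k (by omega))
      have h2 := recB (2 * i)
      dsimp only at h1 ⊢
      have h6 : (0 : ℚ) < 4 * (((2 * i : ℕ) : ℚ) + 2) := by positivity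
      have h9 : (1 / 12 : ℚ) ^ (i + 1) * (4 * (((2 * i : ℕ) : ℚ) + 2)) ≤
          ((-1) ^ (i + 1) * P gB 0 (2 * i + 2)) * (4 * (((2 * i : ℕ) : ℚ) + 2)) := by
        rw [mul_assoc, h2, pow_succ, pow_succ]
        have h10 : (0 : ℚ) ≤ (1 / 12) ^ i := by positivity
        have h11 : (0 : ℚ) ≤ (i : ℚ) * (1 / 12) ^ i := by positivity
        push_cast
        nlinarith
      exact le_of_mul_le_mul_right h9 h6

theorem conv_low0 (f g : ℕ → ℚ) (J : ℕ) (hf : ∀ i ≤ 2 * J, PS f i) (hg : g 0 = 0)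
    (lf : ∀ i ≤ 2 * J, LB f i) (lg : ∀ i, i ≠ 0 → i ≤ 2 * J → LB g i) :
    (J : ℚ) * (1 / 12) ^ J ≤ (-1) ^ J * ∑ p ∈ antidiagonal (2 * J), f p.1 * g p.2 := by
  have h0 : ∑ i ∈ range (2 * J + 1), (if Even i ∧ 2 * J - i ≠ 0 then (1 / 12 : ℚ) ^ J else 0) =
      (J : ℚ) * (1 / 12) ^ J := by
    have h1 := sum_even ((1 / 12 : ℚ) ^ J) J
    rw [Finset.sum_range_succ, if_pos ⟨J, by ring⟩] at h1
    rw [Finset.sum_range_succ, if_neg (by simp), add_zero]
    have h2 : ∑ i ∈ range (2 * J), (if Even i ∧ 2 * J - i ≠ 0 then (1 / 12 : ℚ) ^ J else 0) =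
        ∑ i ∈ range (2 * J), (if Even i then (1 / 12 : ℚ) ^ J else 0) := by
      refine Finset.sum_congr rfl fun i hi => ?_
      rw [Finset.mem_range] at hi
      have : 2 * J - i ≠ 0 := by omega
      simp [this]
    rw [h2]
    linarith
  rw [← h0, ← Finset.Nat.sum_antidiagonal_eq_sum_range_succ_mk
    (fun p => if Even p.1 ∧ p.2 ≠ 0 then (1 / 12 : ℚ) ^ J else 0), Finset.mul_sum]
  refine Finset.sum_le_sum fun p hp => ?_
  rw [HasAntidiagonal.mem_antidiagonal] at hp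
  split_ifs with h
  · obtain ⟨⟨a, ha⟩, hq⟩ := h
    obtain ⟨b, hb⟩ : ∃ b, p.2 = 2 * b := ⟨J - a, by omega⟩
    have h1 := lf p.1 (by omega) a (by omega)
    have h2 := lg p.2 hq (by omega) b hb
    have h3 : (-1 : ℚ) ^ J * (f p.1 * g p.2) = ((-1) ^ a * f p.1) * ((-1) ^ b * g p.2) := by
      rw [show J = a + b by omega, pow_add]; ring
    rw [h3, show J = a + b by omega, pow_add]
    exact mul_le_mul h1 h2 (by positivity) ((by positivity : (0 : ℚ) ≤ (1 / 12) ^ a).trans h1)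
  · rcases Nat.even_or_odd p.1 with he | ho
    · have hq : p.2 = 0 := by
        by_contra hq
        exact h ⟨he, hq⟩
      rw [hq, hg, mul_zero, mul_zero]
    · rw [(hf p.1 (by omega)).1 ho, zero_mul, mul_zero]

theorem recE (n : ℕ) : PowerSeries.coeff (n + 2) sE * (8 * (((n : ℚ) + 2) * ((n : ℚ) + 1))) =
    - (16 * ∑ p ∈ antidiagonal n, PowerSeries.coeff p.1 sB * PowerSeries.coeff p.2 (sB - 1)) -
    4 * ∑ p ∈ antidiagonal n, PowerSeries.coeff p.1 sB * PowerSeries.coeff p.2 (sB * sE) := by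
  have h1 := congrArg (PowerSeries.coeff n) ode_E
  have h8 : (8 : ℚ⟦X⟧) = PowerSeries.C (8 : ℚ) := rfl
  have h16 : (16 : ℚ⟦X⟧) = PowerSeries.C (16 : ℚ) := rfl
  have h4 : (4 : ℚ⟦X⟧) = PowerSeries.C (4 : ℚ) := rfl
  rw [map_sub, map_neg, h8, h16, h4, coeff_C_mul, coeff_C_mul, coeff_C_mul, PowerSeries.coeff_derivative,
    PowerSeries.coeff_derivative, coeff_mul, coeff_mul] at h1
  rw [← h1]; push_cast; ring

theorem growth : ∀ i : ℕ, 3 ≤ i → ((i : ℚ) + 1) * (2 * i + 1) * 3 ^ i ≤ 4 * i * 4 ^ i := by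
  intro i hi
  induction i, hi using Nat.le_induction with
  | base => norm_num
  | succ i hi ih =>
    have hi' : (3 : ℚ) ≤ i := by exact_mod_cast hi
    rw [pow_succ, pow_succ]
    push_cast
    have h3 : (0 : ℚ) < 3 ^ i := by positivity
    have h4 : (0 : ℚ) < 4 ^ i := by positivity
    -- (i+2)(2i+3) 3 ≤ ... (i+1)(2i+1) 4 (i+1)/i
    have h5 : ((i : ℚ) + 1 + 1) * (2 * (i + 1) + 1) * 3 * i ≤ ((i : ℚ) + 1) * (2 * i + 1) * 4 * (i + 1) := by
      nlinarith [sq_nonneg ((i : ℚ) - 3), mul_nonneg (by linarith : (0 : ℚ) ≤ (i : ℚ) - 3) (sq_nonneg (i : ℚ))]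
    have h6 : ((i : ℚ) + 1 + 1) * (2 * (i + 1) + 1) * (3 ^ i * 3) * i ≤
        (4 * (i + 1) * (4 ^ i * 4)) * i := by
      calc ((i : ℚ) + 1 + 1) * (2 * (i + 1) + 1) * (3 ^ i * 3) * i
          = (((i : ℚ) + 1 + 1) * (2 * (i + 1) + 1) * 3 * i) * 3 ^ i := by ring
        _ ≤ (((i : ℚ) + 1) * (2 * i + 1) * 4 * (i + 1)) * 3 ^ i := by gcongr
        _ = 4 * (i + 1) * (((i : ℚ) + 1) * (2 * i + 1) * 3 ^ i) := by ring
        _ ≤ 4 * (i + 1) * (4 * i * 4 ^ i) := by gcongr
        _ = (4 * (i + 1) * (4 ^ i * 4)) * i := by ring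
    exact le_of_mul_le_mul_right h6 (by linarith)

theorem lowE (i : ℕ) (hi : 3 ≤ i) :
    4 * (1 / 16 : ℚ) ^ (i + 1) ≤ (-1) ^ (i + 1) * PowerSeries.coeff (2 * i + 2) sE := by
  have hz : ∀ i, PowerSeries.coeff i sB = P gB 0 i := fun i => by rw [sB, coeff_mk]
  have hB : ∀ i, PS (fun n => PowerSeries.coeff n sB) i := fun i => by
    have := signB i
    simp only [hz]
    exact this
  have lB : ∀ i, LB (fun n => PowerSeries.coeff n sB) i := fun i => by
    have := lowB i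
    simp only [hz]
    exact this
  have hu0 : PowerSeries.coeff 0 (sB - 1) = 0 := by
    rw [map_sub, hz, P_zero]; simp [gB]
  have hu : ∀ i, i ≠ 0 → PowerSeries.coeff i (sB - 1) = PowerSeries.coeff i sB := fun i hi => by
    rw [map_sub, PowerSeries.coeff_one, if_neg hi, sub_zero]
  have h1 := conv_low0 (fun n => PowerSeries.coeff n sB) (fun n => PowerSeries.coeff n (sB - 1)) i
    (fun k _ => hB k) hu0 (fun k _ => lB k) (fun k hk _ => by
      intro j hj
      dsimp only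
      rw [hu k hk]
      exact lB k j hj)
  have hc2 : ∀ k ≤ 2 * i, PS (fun n => PowerSeries.coeff n (sB * sE)) k := by
    intro k _
    have := conv_sign (fun n => PowerSeries.coeff n sB) (fun n => PowerSeries.coeff n sE) k
      (fun i _ => hB i) (fun j _ => signE j)
    simpa only [coeff_mul] using this
  have h3 := (conv_sign (fun n => PowerSeries.coeff n sB) (fun n => PowerSeries.coeff n (sB * sE)) (2 * i)
    (fun i _ => hB i) hc2).2 i rfl
  have h2 := recE (2 * i)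
  dsimp only at h1 h3
  have h6 : (0 : ℚ) < 8 * ((((2 * i : ℕ) : ℚ) + 2) * (((2 * i : ℕ) : ℚ) + 1)) := by positivity
  have h7 : (16 : ℚ) * (i * (1 / 12) ^ i) ≤
      ((-1) ^ (i + 1) * PowerSeries.coeff (2 * i + 2) sE) *
        (8 * ((((2 * i : ℕ) : ℚ) + 2) * (((2 * i : ℕ) : ℚ) + 1))) := by
    rw [mul_assoc, h2, pow_succ]
    linarith
  have h8 : 4 * (1 / 16 : ℚ) ^ (i + 1) * (8 * ((((2 * i : ℕ) : ℚ) + 2) * (((2 * i : ℕ) : ℚ) + 1))) ≤
      16 * (i * (1 / 12) ^ i) := by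
    have h9 := growth i hi
    have e1 : (1 / 12 : ℚ) ^ i = 4 ^ i / 48 ^ i := by
      rw [← div_pow]; norm_num
    have e2 : (1 / 16 : ℚ) ^ (i + 1) = 3 ^ i / 48 ^ i / 16 := by
      rw [pow_succ, ← div_pow, show (3 / 48 : ℚ) = 1 / 16 by norm_num]; ring
    rw [e1, e2]
    have h48 : (0 : ℚ) < 48 ^ i := by positivity
    have h10 : 4 * (3 ^ i / 48 ^ i / 16) * (8 * ((((2 * i : ℕ) : ℚ) + 2) * (((2 * i : ℕ) : ℚ) + 1))) =
        (4 * (((i : ℚ) + 1) * (2 * i + 1) * 3 ^ i)) / 48 ^ i := by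
      push_cast; ring
    have h11 : 16 * ((i : ℚ) * (4 ^ i / 48 ^ i)) = (4 * (4 * i * 4 ^ i)) / 48 ^ i := by ring
    rw [h10, h11]
    gcongr
  exact le_of_mul_le_mul_right (h8.trans h7) h6

/-- **lower bound for the numbers of even rank** -/
theorem low_of {τ : Typ} {n : ℕ} (h : τ.rank n) (j : ℕ) (hj : n = 2 * j) :
    (1 / 16 : ℚ) ^ j ≤ (-1) ^ j * bT τ n := by
  have h12 : ((1 / 16 : ℚ)) ^ j ≤ (1 / 12) ^ j := by gcongr; norm_num
  cases τ with
  | A => exact h12.trans (lowA n j hj)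
  | B => exact h12.trans (lowB n j hj)
  | D =>
    have h' : 4 ≤ n := h
    obtain ⟨i, rfl⟩ : ∃ i, j = i + 1 := ⟨j - 1, by omega⟩
    rcases Nat.lt_or_ge i 3 with hi | hi
    · have : i = 1 ∨ i = 2 := by omega
      rcases this with rfl | rfl
      · subst hj
        decide +kernel
      · subst hj
        decide +kernel
    · obtain rfl : n = 2 * i + 2 := by omega
      rw [bT_D]
      have := lowE i hi
      linarith
  | E =>
    have h' : n = 6 ∨ n = 7 ∨ n = 8 := h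
    rcases h' with rfl | rfl | rfl
    · obtain rfl : j = 3 := by omega
      decide +kernel
    · omega
    · obtain rfl : j = 4 := by omega
      decide +kernel
  | F =>
    have h' : n = 4 := h
    subst h'
    obtain rfl : j = 2 := by omega
    decide +kernel
  | H =>
    have h' : n = 3 ∨ n = 4 := h
    rcases h' with rfl | rfl
    · omega
    · obtain rfl : j = 2 := by omega
      decide +kernel

end Pool.Agent.NH65.CX
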