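import Pool.Agent.NH65.CX.Mrs

/-!
# The gap between the weighted and the right-angled quantities
-/

set_option autoImplicit false
set_option linter.unusedSectionVars false

namespace Pool.Agent.NH65.CX

open Finset Pool.Agent.W907.SG Pool.Agent.W907.SM
open Pool.Agent.TH652.Above (HSph)
open Pool.Agent.W497.FS (cl lam lkF mem_cl mem_lkF cl_of_subset lam_empty)
open Pool.Agent.R703.CW (Orders omegaN omegaN_eq chiW_eq mem_cl_univ card_le_of_hsph Heavy lam_ra bN_ra bN_ra_empty
  bN_light)
open Y365.FS

variable {V : Type} [Fintype V] [LinearOrder V] {G : SimpleGraph V}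

/-- the facets have empty links -/
theorem lkF_facet {n : ℕ} (hS : HSph n G) (T : Finset V) (hT : G.IsClique (T : Set V)) (hc : T.card = n) :
    lkF G univ T = ∅ := by
  classical
  rw [Finset.eq_empty_iff_forall_notMem]
  intro v hv
  rw [mem_lkF] at hv
  have h1 : v ∉ T := fun h => (hv.2 v h).ne rfl
  have h2 : G.IsClique ((insert v T : Finset V) : Set V) := by
    rw [Finset.coe_insert]
    exact hT.insert fun u hu _ => (hv.2 u hu).symm
  have h3 := card_le_of_hsph hS _ h2
  rw [Finset.card_insert_of_notMem h1] at h3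
  omega

/-- **the quantitative comparison** -/
theorem weighted_quant {m : ℕ} (hm : 0 < m) (hS : HSph (2 * m) G) (w : Finset V → ℕ) (M : Finset V → ℚ)
    (hN : Orders G w M)
    (hc : ∀ T : Finset V, G.IsClique (T : Set V) → Heavy w T → T.Nonempty → ∀ j l, T.card = 2 * j → j + l = m →
      0 ≤ (-1) ^ l * lam G (lkF G Finset.univ T) ∨
        ∃ A ⊆ T, Odd A.card ∧ ∀ x ∈ A, ∀ y ∈ T, y ∉ A → w {x, y} = 2) :
    (∀ T : Finset V, G.IsClique (T : Set V) → T.card = 2 * m → 0 ≤ (-1) ^ m * bN M T) ∧
    (-1) ^ m * chiW G + ∑ T ∈ (cl G univ).filter (fun T => T.card = 2 * m), (-1) ^ m * bN M T ≤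
      (-1) ^ m * omegaN G M := by
  classical
  rw [omegaN_eq, chiW_eq]
  have hw : ∀ e ∈ cl G univ, e.card = 2 → 2 ≤ w e ∧ M e = 2 * w e := by
    intro e he he2
    obtain ⟨u, v, huv, rfl⟩ := Finset.card_eq_two.1 he2
    exact hN.edge u v ((mem_cl_univ _).1 he (by simp) (by simp) huv)
  have hmul : ∀ A B, Disjoint A B → A ∪ B ∈ cl G univ → (∀ a ∈ A, ∀ b ∈ B, w {a, b} = 2) →
      M (A ∪ B) = M A * M B := fun A B hAB hAB2 h => hN.mul A B hAB ((mem_cl_univ _).1 hAB2) h
  have hF : ∀ T ∈ cl G univ, ∀ U ⊆ T, U ∈ cl G univ := fun T hT U hU => cl_of_subset hT hU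
  have hG := goodOrders_of hF w (fun e he he2 => (hw e he he2).1) M hN.empty (fun v _ => hN.vertex v)
    (fun e he he2 => (hw e he he2).2) hmul (fun T hT h3 hc => hN.sign T ((mem_cl_univ T).1 hT) h3 hc)
  have hN0 : bN M (∅ : Finset V) = 1 := by simp [bN, hN.empty]
  refine ⟨fun T hT hTc => (hG T ((mem_cl_univ T).2 hT)).2 m hTc, ?_⟩
  rw [← lam_ra (H := G) univ, ← le_sub_iff_add_le', ← mul_sub, weighted_eq, weighted_eq, ← Finset.sum_sub_distrib,
    Finset.mul_sum, Finset.sum_filter]
  refine Finset.sum_le_sum fun T hT => ?_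
  have hTc := (mem_cl_univ T).1 hT
  have hle := card_le_of_hsph hS T hTc
  split_ifs with h2m
  · -- facets
    have h0 : T.Nonempty := Finset.card_pos.1 (by omega)
    have h1 : (-1 : ℚ) ^ T.card = 1 := by rw [h2m]; exact Even.neg_one_pow ⟨m, by omega⟩
    rw [lkF_facet hS T hTc h2m, lam_empty, bN_ra T h0, h1]
    apply le_of_eq
    ring
  · by_cases hb : bN (fun σ : Finset V => (2 : ℚ) ^ σ.card) T = bN M T
    · rw [hb, sub_self, mul_zero]
    · have hne : T.Nonempty := by
        rw [Finset.nonempty_iff_ne_empty]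
        rintro rfl
        exact hb (by rw [hN0, bN_ra_empty])
      rw [bN_ra T hne] at hb ⊢
      rcases Nat.even_or_odd T.card with ⟨j, hj⟩ | ho
      · obtain ⟨l, hl⟩ : ∃ l, j + l = m := ⟨m - j, by omega⟩
        have h2 := (hG T hT).2 j (by omega)
        have hh : Heavy w T := by
          by_contra hh
          exact hb (by rw [bN_light hF w M hN.empty (fun v _ => hN.vertex v) hmul T hT hh])
        rcases hc T hTc hh hne j l (by omega) hl with h1 | ⟨A, hA, hAo, hAw⟩
        · have h4 : (-1 : ℚ) ^ T.card = 1 := by rw [hj]; exact Even.neg_one_pow ⟨j, rfl⟩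
          have h5 : (-1 : ℚ) ^ m * ((-1) ^ T.card * bN M T * lam G (lkF G univ T) -
              (-1) ^ T.card * 0 * lam G (lkF G univ T)) =
              ((-1) ^ j * bN M T) * ((-1) ^ l * lam G (lkF G univ T)) := by
            rw [h4, ← hl, pow_add]; ring
          rw [h5]
          exact mul_nonneg h2 h1
        · exfalso
          apply hb
          have hd : Disjoint A (T \ A) := disjoint_sdiff
          have hu : A ∪ (T \ A) = T := union_sdiff_of_subset hA
          have h2 := bN_union hd M (fun U hU V hV => hmul U V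
            (Finset.disjoint_of_subset_left hU (Finset.disjoint_of_subset_right hV hd))
            (hF T hT _ (by rw [← hu]; exact Finset.union_subset_union hU hV))
            (fun x hx y hy => by
              have hy' := mem_sdiff.1 (hV hy)
              exact hAw x (hU hx) y hy'.1 hy'.2))
          rw [hu, (hG A (hF T hT A hA)).1 hAo, zero_mul] at h2
          exact h2.symm
      · exact absurd (by rw [(hG T hT).1 ho]) hb

end Pool.Agent.NH65.CX
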