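import Pool.Agent.NH65.CX.Tab0
import Pool.Agent.R703.CW.Main

/-!
# The orders of the finite Coxeter groups have the properties in the structure `Orders`
-/

set_option autoImplicit false
set_option linter.unusedSectionVars false

namespace Pool.Agent.NH65.CX

open Finset
open Pool.Agent.R703.CW (Orders)

/-- **the orders of the Coxeter groups** -/
theorem CoxOrders.orders {V : Type} [Fintype V] [LinearOrder V] {G : SimpleGraph V} {w : Finset V → ℕ}
    {M : Finset V → ℚ} (h : CoxOrders G w M) : Orders G w M where
  empty := h.empty
  vertex := h.vertex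
  edge := h.edge
  mul := h.mul
  sign := by
    intro T hT h3 hc
    obtain ⟨τ, hr, hb⟩ := h.bN_eq hT h3 hc
    have h5 := sign_of hr
    have h6 : ∑ U ∈ T.powerset, (-1 / 2 : ℚ) ^ (T.card - U.card) / M U = bT τ T.card := hb
    rw [h6]
    exact h5

end Pool.Agent.NH65.CX
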