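import Pool.Agent.NH65.CX.NumLow
import Pool.Agent.NH65.CX.EvDef
import Pool.Agent.Y365.FS.Wt2

/-!
# The coefficients `b(T)` for the orders of the finite Coxeter groups
-/

set_option autoImplicit false
set_option linter.unusedSectionVars false

namespace Pool.Agent.NH65.CX

open Finset
open Pool.Agent.W497.FS (cl lam lkF mem_cl mem_lkF cl_of_subset)
open Y365.FS (bN bN_union goodOrders_of GoodOrders)

variable {V : Type} [DecidableEq V]

theorem sub_subset : ∀ (x : List V) (s : List Bool), sub x s ⊆ x.toFinset
  | [], s => by simp [sub]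
  | a :: x, [] => by simp [sub]
  | a :: x, true :: s => by
    rw [sub, List.toFinset_cons]
    exact insert_subset_insert _ (sub_subset x s)
  | a :: x, false :: s => by
    rw [sub, List.toFinset_cons]
    exact (sub_subset x s).trans (subset_insert _ _)

theorem card_sub : ∀ (x : List V) (s : List Bool), x.Nodup → s.length = x.length →
    (sub x s).card + s.count false = x.length
  | [], [], _, _ => by simp [sub]
  | [], _ :: _, _, h => by simp at h
  | a :: x, [], _, h => by simp at h
  | a :: x, true :: s, hx, h => by
    have h1 := card_sub x s (List.nodup_cons.1 hx).2 (by simpa using h)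
    have h2 : a ∉ sub x s := fun h3 => (List.nodup_cons.1 hx).1 (List.mem_toFinset.1 (sub_subset x s h3))
    rw [sub, card_insert_of_notMem h2, List.count_cons_of_ne (by decide), List.length_cons]
    omega
  | a :: x, false :: s, hx, h => by
    have h1 := card_sub x s (List.nodup_cons.1 hx).2 (by simpa using h)
    rw [sub, List.count_cons_self, List.length_cons]
    omega

theorem sum_sub : ∀ (x : List V) (_ : x.Nodup) (Φ : Finset V → ℚ),
    ∑ U ∈ x.toFinset.powerset, Φ U = tot x.length fun s => Φ (sub x s)
  | [], _, Φ => by simp [tot, sub]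
  | a :: x, hx, Φ => by
    have h2 : a ∉ x.toFinset := fun h3 => (List.nodup_cons.1 hx).1 (List.mem_toFinset.1 h3)
    rw [List.toFinset_cons, Finset.sum_powerset_insert h2, List.length_cons, tot,
      sum_sub x (List.nodup_cons.1 hx).2 Φ, sum_sub x (List.nodup_cons.1 hx).2 fun U => Φ (insert a U), add_comm]
    rfl

variable {G : SimpleGraph V} {w : Finset V → ℕ} {M : Finset V → ℚ}

/-- connected by edges of weight at least `3` -/
def Conn (w : Finset V → ℕ) (T : Finset V) : Prop :=
  ∀ A ⊆ T, A.Nonempty → A ≠ T → ∃ a ∈ A, ∃ b ∈ T, b ∉ A ∧ w {a, b} ≠ 2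

theorem CoxOrders.bN_eq (h : CoxOrders G w M) {T : Finset V} (hT : G.IsClique (T : Set V)) (h3 : 3 ≤ T.card)
    (hc : Conn w T) : ∃ τ : Typ, τ.rank T.card ∧ bN M T = bT τ T.card := by
  obtain ⟨τ, x, hx, hxT, hr, -, hM⟩ := h.diagram T hT h3 hc
  have hcard : T.card = x.length := by
    rw [← hxT, List.toFinset_card_of_nodup hx]
  refine ⟨τ, by rw [hcard]; exact hr, ?_⟩
  have h2 := sum_sub x hx fun U => (-1 / 2 : ℚ) ^ (T.card - U.card) / M U
  rw [hxT] at h2
  rw [bN, h2, bT, hcard]
  refine tot_congr _ _ _ fun s hs => ?_
  have h4 := card_sub x s hx hs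
  rw [hM s hs, show x.length - (sub x s).card = s.count false by omega]

/-- the sign of the coefficients -/
theorem CoxOrders.good (h : CoxOrders G w M) (W : Finset V) : GoodOrders (cl G W) M := by
  have hcl : ∀ T, T ∈ cl G W → G.IsClique (T : Set V) := by
    intro T hT x hx y hy hxy
    exact (mem_cl.1 hT).2 x hx y hy hxy
  have he : ∀ e ∈ cl G W, e.card = 2 → 2 ≤ w e ∧ M e = 2 * w e := by
    intro e he he2
    obtain ⟨u, v, huv, rfl⟩ := Finset.card_eq_two.1 he2
    exact h.edge u v (hcl _ he (by simp) (by simp) huv)
  refine goodOrders_of (fun T hT U hU => cl_of_subset hT hU) w (fun e he' he2 => (he e he' he2).1) M h.empty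
    (fun v _ => h.vertex v) (fun e he' he2 => (he e he' he2).2)
    (fun A B hAB hAB2 hw => h.mul A B hAB (hcl _ hAB2) hw) (fun T hT h3 hc => ?_)
  obtain ⟨τ, hr, hb⟩ := h.bN_eq (hcl _ hT) h3 hc
  rw [hb]
  exact sign_of hr

/-- **lower bound for the coefficients of the cliques with components of even rank** -/
theorem CoxOrders.low (h : CoxOrders G w M) : ∀ (n : ℕ) (T : Finset V), T.card = n → G.IsClique (T : Set V) →
    ¬ OddComp w T → ∀ j, T.card = 2 * j → (1 / 16 : ℚ) ^ j ≤ (-1) ^ j * bN M T := by
  intro n
  induction n using Nat.strong_induction_on with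
  | _ n ih =>
    intro T hn hT ho j hj
    rcases T.eq_empty_or_nonempty with rfl | hne
    · obtain rfl : j = 0 := by simpa using hj.symm
      simp [bN, h.empty]
    by_cases hc : Conn w T
    · rcases Nat.lt_or_ge T.card 3 with h3 | h3
      · have hc2 : T.card = 2 := by
          have := Finset.card_pos.2 hne
          omega
        obtain rfl : j = 1 := by omega
        obtain ⟨u, v, huv, rfl⟩ := Finset.card_eq_two.1 hc2
        obtain ⟨a, ha, b, hb, hab, hw⟩ := hc {u} (by simp) (by simp) (by
          intro e
          have := congrArg Finset.card e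
          rw [hc2, Finset.card_singleton] at this
          omega)
        rw [Finset.mem_singleton] at ha hab
        subst ha
        have hbv : b = v := by
          rw [Finset.mem_insert, Finset.mem_singleton] at hb
          exact hb.resolve_left hab
        subst hbv
        obtain ⟨e5, e6⟩ := h.edge a b (hT (by simp) (by simp) huv)
        have hw3 : (3 : ℚ) ≤ w {a, b} := by
          have : 3 ≤ w {a, b} := by omega
          exact_mod_cast this
        have hu' : a ∉ ({b} : Finset V) := by simpa using huv
        have e1 : ({b} : Finset V) = insert b ∅ := rfl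
        have hb : bN M {a, b} = 1 / (2 * (w {a, b} : ℚ)) - 1 / 4 := by
          rw [bN, Finset.sum_powerset_insert hu', e1,
            Finset.sum_powerset_insert (Finset.notMem_empty b),
            Finset.sum_powerset_insert (Finset.notMem_empty b)]
          have e2 : insert b (∅ : Finset V) = {b} := rfl
          have e3 : insert a (∅ : Finset V) = {a} := rfl
          simp only [Finset.powerset_empty, Finset.sum_singleton, e2, e3,
            Finset.card_singleton, Finset.card_empty, h.empty, h.vertex, hc2, e6]
          norm_num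
          ring
        rw [hb]
        have h5 : 1 / (2 * (w {a, b} : ℚ)) ≤ 1 / 6 := by
          apply one_div_le_one_div_of_le (by norm_num)
          linarith
        rw [pow_one, pow_one]
        linarith
      · obtain ⟨τ, hr, hb⟩ := h.bN_eq hT h3 hc
        rw [hb]
        exact low_of hr j hj
    · rw [Conn] at hc
      push Not at hc
      obtain ⟨A, hA, hAne, hAT, hlight⟩ := hc
      have hun : A ∪ (T \ A) = T := Finset.union_sdiff_of_subset hA
      have hd : Disjoint A (T \ A) := Finset.disjoint_sdiff
      have hBne : (T \ A).Nonempty := by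
        rw [Finset.sdiff_nonempty]
        exact fun h => hAT (Finset.Subset.antisymm hA h)
      have hcard := Finset.card_union_of_disjoint hd
      rw [hun] at hcard
      have hpA := Finset.card_pos.2 hAne
      have hpB := Finset.card_pos.2 hBne
      have hAe : Even A.card := by
        by_contra hodd
        exact ho ⟨A, hA, Nat.not_even_iff_odd.1 hodd, fun x hx y hy hyA => hlight x hx y hy hyA⟩
      obtain ⟨a, ha⟩ := hAe
      obtain ⟨b, hb⟩ : ∃ b, (T \ A).card = 2 * b := ⟨j - a, by omega⟩
      have hcA : G.IsClique (A : Set V) := hT.subset (Finset.coe_subset.2 hA)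
      have hcB : G.IsClique ((T \ A : Finset V) : Set V) := hT.subset (Finset.coe_subset.2 Finset.sdiff_subset)
      have hoA : ¬ OddComp w A := by
        rintro ⟨C, hC, hCo, hCw⟩
        refine ho ⟨C, hC.trans hA, hCo, fun x hx y hy hyC => ?_⟩
        by_cases hyA : y ∈ A
        · exact hCw x hx y hyA hyC
        · exact hlight x (hC hx) y hy hyA
      have hoB : ¬ OddComp w (T \ A) := by
        rintro ⟨C, hC, hCo, hCw⟩
        refine ho ⟨C, hC.trans Finset.sdiff_subset, hCo, fun x hx y hy hyC => ?_⟩
        by_cases hyA : y ∈ A
        · rw [Finset.pair_comm]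
          have hx' := Finset.mem_sdiff.1 (hC hx)
          exact hlight y hyA x hx'.1 hx'.2
        · exact hCw x hx y (Finset.mem_sdiff.2 ⟨hy, hyA⟩) hyC
      have i1 := ih A.card (by omega) A rfl hcA hoA a (by omega)
      have i2 := ih (T \ A).card (by omega) (T \ A) rfl hcB hoB b hb
      have hmul := bN_union hd M (fun U hU V hV => h.mul U V
        (Finset.disjoint_of_subset_left hU (Finset.disjoint_of_subset_right hV hd))
        (hT.subset (by
          rw [← hun]
          exact Finset.coe_subset.2 (Finset.union_subset_union hU hV)))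
        (fun x hx y hy => by
          have hy' := Finset.mem_sdiff.1 (hV hy)
          exact hlight x (hU hx) y hy'.1 hy'.2))
      rw [hun] at hmul
      obtain rfl : j = a + b := by omega
      have h3 : (-1 : ℚ) ^ (a + b) * (bN M A * bN M (T \ A)) = ((-1) ^ a * bN M A) * ((-1) ^ b * bN M (T \ A)) := by
        rw [pow_add]; ring
      rw [hmul, h3, pow_add]
      exact mul_le_mul i1 i2 (by positivity) ((by positivity : (0 : ℚ) ≤ (1 / 16) ^ a).trans i1)

end Pool.Agent.NH65.CX
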